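import Pool.Graph.R_seed8.H878R5.S23.Yes

/-!
The rotation group `SO(3) = S³ / {±1}` as a smooth manifold.
-/

open Bundle Manifold ContDiff ContinuousLinearMap Filter VectorField Metric
open scoped Topology RealInnerProductSpace Quaternion

set_option autoImplicit false
set_option linter.unusedSectionVars false

noncomputable section

namespace Pool.Agent.KS6_83.QS

open Pool.Agent.H878R5.S23 Pool.Agent.H893R5.HO

theorem coe_negone : ((-1 : S3) : Hq) = -1 := by
  rw [coe_neg_sphere]; rfl

theorem negone_sq : (-1 : S3) * -1 = 1 := by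
  apply Subtype.ext
  rw [Metric.unitSphere.coe_mul, coe_negone]
  simp

/-- The subgroup `{1, -1}` of the unit quaternions. -/
def Z : Subgroup S3 where
  carrier := {h | h = 1 ∨ h = -1}
  mul_mem' := by
    rintro a b (rfl | rfl) (rfl | rfl)
    · left; simp
    · right; simp
    · right; simp
    · left; exact negone_sq
  one_mem' := Or.inl rfl
  inv_mem' := by
    rintro a (rfl | rfl)
    · left; simp
    · right
      rw [inv_eq_iff_mul_eq_one]
      exact negone_sq

theorem mem_Z {h : S3} : h ∈ Z ↔ h = 1 ∨ h = -1 := Iff.rfl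

instance normalZ : Z.Normal where
  conj_mem := by
    rintro a (rfl | rfl) g
    · left; simp
    · right
      apply Subtype.ext
      have e : ((g * -1 * g⁻¹ : S3) : Hq) = -((g * g⁻¹ : S3) : Hq) := by
        rw [Metric.unitSphere.coe_mul, Metric.unitSphere.coe_mul, Metric.unitSphere.coe_mul,
          coe_negone, mul_neg, mul_one, neg_mul]
      rw [e, mul_inv_cancel, coe_negone]
      rfl

/-- The rotation group `SO(3) = S³ / {±1}`, a topological group. -/
abbrev SO3 : Type := S3 ⧸ Z

/-- The projection `S³ → SO(3)`. -/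
abbrev pr (q : S3) : SO3 := QuotientGroup.mk q

theorem pr_eq {a b : S3} : pr a = pr b ↔ b = a ∨ b = -a := by
  rw [QuotientGroup.eq, mem_Z, inv_mul_eq_iff_eq_mul, inv_mul_eq_iff_eq_mul, mul_one]
  have : a * -1 = -a := by
    apply Subtype.ext
    simp
  rw [this]

theorem pr_neg (a : S3) : pr (-a) = pr a := (pr_eq.2 (Or.inr rfl)).symm

theorem isClosed_Z : IsClosed (Z : Set S3) := by
  have : (Z : Set S3) = {1, -1} := by
    ext h
    simp [mem_Z]
  rw [this]
  exact (Set.toFinite _).isClosed

instance closedZ : IsClosed (Z : Set S3) := isClosed_Z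

instance t2 : T2Space SO3 := inferInstance

instance cpt : CompactSpace SO3 := inferInstance

theorem continuous_pr : Continuous pr := continuous_quot_mk

theorem isOpenMap_pr : IsOpenMap pr := QuotientGroup.isOpenMap_coe

theorem surjective_pr : Function.Surjective pr := Quotient.mk_surjective

instance conn : ConnectedSpace SO3 := surjective_pr.connectedSpace continuous_pr

/-- descend an even function -/
def lf {β : Sort*} (f : S3 → β) (hf : ∀ r, f (-r) = f r) : SO3 → β :=
  Quotient.lift f (fun a b h => by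
    have h2 : pr a = pr b := Quotient.sound h
    rcases pr_eq.1 h2 with h | h
    · rw [h]
    · rw [h, hf])

theorem lf_pr {β : Sort*} (f : S3 → β) (hf : ∀ r, f (-r) = f r) (r : S3) :
    lf f hf (pr r) = f r := rfl

/-! ### The chart on quaternions -/

@[simp] theorem im_re (w : HopfPP.V ℝ) : (im w).re = 0 := rfl
@[simp] theorem im_imI (w : HopfPP.V ℝ) : (im w).imI = w 0 := rfl
@[simp] theorem im_imJ (w : HopfPP.V ℝ) : (im w).imJ = w 1 := rfl
@[simp] theorem im_imK (w : HopfPP.V ℝ) : (im w).imK = w 2 := rfl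

/-- the imaginary part of a quaternion as a vector -/
def imV (a : Hq) : R3 := WithLp.toLp 2 ![a.imI, a.imJ, a.imK]

/-- the imaginary part as a vector -/
def nu : Hq →L[ℝ] R3 :=
  LinearMap.toContinuousLinearMap
    { toFun := fun a => WithLp.toLp 2 ![a.imI, a.imJ, a.imK]
      map_add' := fun a b => by ext i; fin_cases i <;> simp
      map_smul' := fun r a => by ext i; fin_cases i <;> simp }

theorem nu_apply (a : Hq) : nu a = WithLp.toLp 2 ![a.imI, a.imJ, a.imK] := rfl

/-- imaginary part divided by the real part -/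
def Fc (a : Hq) : R3 := a.re⁻¹ • imV a

theorem Fc_eq (a : Hq) : Fc a = a.re⁻¹ • nu a := rfl

theorem Fc_neg (a : Hq) : Fc (-a) = Fc a := by
  rw [Fc_eq, Fc_eq, map_neg, Quaternion.re_neg, inv_neg, neg_smul_neg]

theorem Fc_smul {c : ℝ} (hc : c ≠ 0) (a : Hq) : Fc (c • a) = Fc a := by
  rw [Fc_eq, Fc_eq, map_smul, Quaternion.re_smul, smul_smul]
  congr 1
  rw [smul_eq_mul, mul_inv]
  field_simp

/-- the quaternion `1 + v` -/
def Gq (v : R3) : Hq := 1 + im v.ofLp

theorem re_Gq (v : R3) : (Gq v).re = 1 := by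
  simp [Gq]

theorem Gq_ne (v : R3) : Gq v ≠ 0 := fun h => by
  have := re_Gq v
  rw [h] at this
  simp at this

theorem Fc_Gq (v : R3) : Fc (Gq v) = v := by
  rw [Fc_eq, nu_apply, re_Gq]
  ext i
  fin_cases i <;> simp [Gq]

theorem Gq_Fc {a : Hq} (ha : a.re ≠ 0) : Gq (Fc a) = a.re⁻¹ • a := by
  rw [Fc_eq, nu_apply]
  ext <;> simp [Gq, ha]

/-- the unit quaternion `(1 + v) / |1 + v|` -/
def uS (v : R3) : S3 := ⟨‖Gq v‖⁻¹ • Gq v, by
  rw [mem_sphere_zero_iff_norm, norm_smul, norm_inv, norm_norm,
    inv_mul_cancel₀ (norm_ne_zero_iff.2 (Gq_ne v))]⟩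

theorem coe_uS (v : R3) : (uS v : Hq) = ‖Gq v‖⁻¹ • Gq v := rfl

theorem star_mul_self_S (q : S3) : star (q : Hq) * (q : Hq) = 1 := by
  rw [Quaternion.star_mul_self, Quaternion.normSq_eq_norm_mul_self, norm_eq_of_mem_sphere]
  simp

theorem self_mul_star_S (q : S3) : (q : Hq) * star (q : Hq) = 1 := by
  rw [Quaternion.self_mul_star, Quaternion.normSq_eq_norm_mul_self, norm_eq_of_mem_sphere]
  simp

end Pool.Agent.KS6_83.QS
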