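import Pool.Agent.KS6_83.QS.A

/-!
Charts of the rotation group `SO(3) = S³ / {±1}`.
-/

open Bundle Manifold ContDiff ContinuousLinearMap Filter VectorField Metric
open scoped Topology RealInnerProductSpace Quaternion

set_option autoImplicit false
set_option linter.unusedSectionVars false

noncomputable section

namespace Pool.Agent.KS6_83.QS

open Pool.Agent.H878R5.S23 Pool.Agent.H893R5.HO

/-- the real part -/
def reL : Hq →L[ℝ] ℝ :=
  LinearMap.toContinuousLinearMap
    { toFun := fun a => a.re
      map_add' := fun _ _ => rfl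
      map_smul' := fun _ _ => rfl }

theorem reL_apply (a : Hq) : reL a = a.re := rfl

/-- a vector as an imaginary quaternion -/
def iR : R3 →L[ℝ] Hq :=
  LinearMap.toContinuousLinearMap
    { toFun := fun v => im v.ofLp
      map_add' := fun a b => by ext <;> simp
      map_smul' := fun r a => by ext <;> simp }

theorem iR_apply (v : R3) : iR v = im v.ofLp := rfl

theorem Gq_eq (v : R3) : Gq v = 1 + iR v := rfl

theorem smooth_Gq : ContDiff ℝ ∞ Gq := by
  have : Gq = fun v => 1 + iR v := funext Gq_eq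
  rw [this]
  exact contDiff_const.add iR.contDiff

theorem smooth_norm_Gq : ContDiff ℝ ∞ (fun v : R3 => ‖Gq v‖) :=
  smooth_Gq.norm ℝ Gq_ne

theorem smooth_uS : ContDiff ℝ ∞ (fun v : R3 => (uS v : Hq)) :=
  (smooth_norm_Gq.inv fun v => norm_ne_zero_iff.2 (Gq_ne v)).smul smooth_Gq

theorem continuous_uS : Continuous uS :=
  Continuous.subtype_mk smooth_uS.continuous _

theorem contDiffAt_Fc {a : Hq} (ha : a.re ≠ 0) : ContDiffAt ℝ ∞ Fc a := by
  have h1 : ContDiffAt ℝ ∞ (fun a : Hq => a.re⁻¹) a :=
    (reL.contDiff.contDiffAt (x := a)).inv ha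
  exact h1.smul nu.contDiff.contDiffAt

theorem ev_Fc (q r : S3) : Fc (star (q : Hq) * ((-r : S3) : Hq)) = Fc (star (q : Hq) * (r : Hq)) := by
  rw [coe_neg_sphere, mul_neg, Fc_neg]

/-- the domain of the chart at `q` -/
def src (q : S3) : Set SO3 := pr '' {r | (star (q : Hq) * (r : Hq)).re ≠ 0}

theorem mem_src {q r : S3} : pr r ∈ src q ↔ (star (q : Hq) * (r : Hq)).re ≠ 0 := by
  constructor
  · rintro ⟨r', h1, h2⟩
    rcases pr_eq.1 h2 with h | h
    · rw [h]; exact h1
    · rw [h, coe_neg_sphere, mul_neg, Quaternion.re_neg, neg_ne_zero]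
      exact h1
  · intro h
    exact ⟨r, h, rfl⟩

theorem isOpen_src (q : S3) : IsOpen (src q) := by
  refine isOpenMap_pr _ ?_
  have h : Continuous fun r : S3 => reL (star (q : Hq) * (r : Hq)) :=
    reL.continuous.comp (continuous_const.mul continuous_subtype_val)
  exact isOpen_ne.preimage h

theorem preimage_src (q : S3) :
    pr ⁻¹' src q = {r : S3 | (star (q : Hq) * (r : Hq)).re ≠ 0} := by
  ext r
  exact mem_src

theorem norm_star_mul (q r : S3) : ‖star (q : Hq) * (r : Hq)‖ = 1 := by
  rw [norm_mul, norm_star, norm_eq_of_mem_sphere, norm_eq_of_mem_sphere, one_mul]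

/-- The chart of `SO(3)` centred at `±q`: it sends `± q (1 + v) / |1 + v|` to the vector `v`. -/
def ch (q : S3) : OpenPartialHomeomorph SO3 R3 where
  toFun := lf (fun r => Fc (star (q : Hq) * (r : Hq))) (ev_Fc q)
  invFun v := pr (q * uS v)
  source := src q
  target := Set.univ
  map_source' _ _ := trivial
  map_target' v _ := by
    rw [mem_src, Metric.unitSphere.coe_mul, ← mul_assoc, star_mul_self_S, one_mul, coe_uS,
      Quaternion.re_smul, smul_eq_mul]
    rw [re_Gq, mul_one]
    exact inv_ne_zero (norm_ne_zero_iff.2 (Gq_ne v))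
  left_inv' x hx := by
    obtain ⟨r, rfl⟩ := surjective_pr x
    rw [mem_src] at hx
    rw [lf_pr]
    obtain ⟨a, ha⟩ : ∃ a : Hq, a = star (q : Hq) * (r : Hq) := ⟨_, rfl⟩
    have hr : (q : Hq) * a = r := by rw [ha, ← mul_assoc, self_mul_star_S, one_mul]
    have hn : ‖a‖ = 1 := by rw [ha, norm_star_mul]
    rw [← ha] at hx ⊢
    have e : ((q * uS (Fc a) : S3) : Hq) = (|a.re| * a.re⁻¹) • (r : Hq) := by
      rw [Metric.unitSphere.coe_mul, coe_uS, Gq_Fc hx, norm_smul, hn, mul_one, norm_inv,
        inv_inv, smul_smul, mul_smul_comm, hr, Real.norm_eq_abs]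
    rw [pr_eq]
    rcases lt_or_gt_of_ne hx with h | h
    · right
      apply Subtype.ext
      rw [coe_neg_sphere, e, abs_of_neg h, neg_mul, mul_inv_cancel₀ hx, neg_smul, one_smul,
        neg_neg]
    · left
      apply Subtype.ext
      rw [e, abs_of_pos h, mul_inv_cancel₀ hx, one_smul]
  right_inv' v _ := by
    rw [lf_pr, Metric.unitSphere.coe_mul, ← mul_assoc, star_mul_self_S, one_mul, coe_uS,
      Fc_smul (inv_ne_zero (norm_ne_zero_iff.2 (Gq_ne v))), Fc_Gq]
  continuousOn_toFun := by
    have hq : Topology.IsQuotientMap pr := QuotientGroup.isQuotientMap_mk Z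
    rw [hq.continuousOn_isOpen_iff (isOpen_src q), preimage_src]
    intro r hr
    refine ContinuousAt.continuousWithinAt ?_
    have h1 : ContinuousAt Fc (star (q : Hq) * (r : Hq)) := (contDiffAt_Fc hr).continuousAt
    exact ContinuousAt.comp (f := fun r : S3 => star (q : Hq) * (r : Hq)) (g := Fc) h1
      (continuous_const.mul continuous_subtype_val).continuousAt
  continuousOn_invFun :=
    (continuous_pr.comp (continuous_const.mul continuous_uS)).continuousOn
  open_source := isOpen_src q
  open_target := isOpen_univ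

theorem ch_pr (q r : S3) : ch q (pr r) = Fc (star (q : Hq) * (r : Hq)) := rfl

theorem ch_symm (q : S3) (v : R3) : (ch q).symm v = pr (q * uS v) := rfl

theorem ch_source (q : S3) : (ch q).source = src q := rfl

/-- a unit quaternion representing a rotation -/
def lft (x : SO3) : S3 := (surjective_pr x).choose

theorem pr_lft (x : SO3) : pr (lft x) = x := (surjective_pr x).choose_spec

theorem self_mem_src (q : S3) : pr q ∈ src q := by
  rw [mem_src, star_mul_self_S]
  exact one_ne_zero

/-- The smooth atlas of `SO(3)`. -/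
instance chartedSO3 : ChartedSpace (EuclideanSpace ℝ (Fin 3)) SO3 where
  atlas := Set.range ch
  chartAt x := ch (lft x)
  mem_chart_source x := by
    have := self_mem_src (lft x)
    rw [pr_lft] at this
    exact this
  chart_mem_atlas x := ⟨_, rfl⟩

theorem chartAt_eq (x : SO3) : chartAt (EuclideanSpace ℝ (Fin 3)) x = ch (lft x) := rfl

theorem uS_zero : uS 0 = 1 := by
  apply Subtype.ext
  have h : Gq 0 = 1 := by
    rw [Gq_eq, map_zero, add_zero]
  rw [coe_uS, h, norm_one, inv_one, one_smul]
  rfl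

theorem ch_self (q : S3) : ch q (pr q) = 0 := by
  rw [ch_pr, star_mul_self_S, Fc_eq, nu_apply]
  ext i
  fin_cases i <;> simp

/-- the chart on a product of unit quaternions -/
theorem trans_smooth (q q' : S3) :
    ContDiffOn ℝ ∞ (fun v : R3 => Fc (star (q' : Hq) * ((q * uS v : S3) : Hq)))
      {v | (star (q' : Hq) * ((q * uS v : S3) : Hq)).re ≠ 0} := by
  intro v hv
  refine ContDiffAt.contDiffWithinAt ?_
  have h1 : ContDiff ℝ ∞ (fun v : R3 => star (q' : Hq) * ((q * uS v : S3) : Hq)) := by
    have : (fun v : R3 => star (q' : Hq) * ((q * uS v : S3) : Hq)) =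
        fun v : R3 => star (q' : Hq) * ((q : Hq) * (uS v : Hq)) := by
      funext v
      rw [Metric.unitSphere.coe_mul]
    rw [this]
    exact contDiff_const.mul (contDiff_const.mul smooth_uS)
  exact ContDiffAt.comp (g := Fc) (f := fun v : R3 => star (q' : Hq) * ((q * uS v : S3) : Hq)) v
    (contDiffAt_Fc hv) h1.contDiffAt

instance mfdSO3 : IsManifold (𝓡 3) ∞ SO3 := by
  refine isManifold_of_contDiffOn (𝓡 3) ∞ SO3 ?_
  rintro _ _ ⟨q, rfl⟩ ⟨q', rfl⟩
  have h := trans_smooth q q'
  refine (h.congr ?_).mono ?_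
  · intro v _
    rfl
  · rintro v ⟨hv, -⟩
    have h2 : (ch q).symm v ∈ src q' := hv.2
    rw [ch_symm, mem_src] at h2
    exact h2

end Pool.Agent.KS6_83.QS
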