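import Pool.Agent.KS6_83.QS.B

/-!
The immersion of `SO(3)` into the space of `3 × 3` matrices (triples of columns).
-/

open Bundle Manifold ContDiff ContinuousLinearMap Filter VectorField Metric
open scoped Topology RealInnerProductSpace Quaternion

set_option autoImplicit false
set_option linter.unusedSectionVars false

noncomputable section

namespace Pool.Agent.KS6_83.QS

open Pool.Agent.H878R5 Pool.Agent.H878R5.S23 Pool.Agent.H893R5.HO HopfPP

/-- triples of columns -/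
abbrev M3 : Type := Fin 3 → R3

/-- cross product -/
def crs : R3 →L[ℝ] R3 →L[ℝ] R3 :=
  bil (LinearMap.mk₂ ℝ (fun a b => cr3 a.ofLp b)
    (fun a b c => by ext i; fin_cases i <;> simp [cr3, cx] <;> ring)
    (fun r a c => by ext i; fin_cases i <;> simp [cr3, cx] <;> ring)
    (fun a b c => by ext i; fin_cases i <;> simp [cr3, cx] <;> ring)
    (fun r a c => by ext i; fin_cases i <;> simp [cr3, cx] <;> ring))

theorem crs_apply (a b : R3) : crs a b = cr3 a.ofLp b := rfl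

theorem crs0 (a b : R3) : (crs a b).ofLp 0 = a.ofLp 1 * b.ofLp 2 - a.ofLp 2 * b.ofLp 1 := rfl
theorem crs1 (a b : R3) : (crs a b).ofLp 1 = a.ofLp 2 * b.ofLp 0 - a.ofLp 0 * b.ofLp 2 := rfl
theorem crs2 (a b : R3) : (crs a b).ofLp 2 = a.ofLp 0 * b.ofLp 1 - a.ofLp 1 * b.ofLp 0 := rfl

/-- basis vectors as imaginary quaternions -/
def ei (i : Fin 3) : Hq := im (Pi.single i 1)

/-- the bilinear version of the rotation matrix -/
def Rb : Hq →L[ℝ] Hq →L[ℝ] M3 :=
  bil (LinearMap.mk₂ ℝ (fun a b => (fun i => nu (a * ei i * star b) : M3))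
    (fun a b c => by funext i; simp [add_mul])
    (fun r a c => by funext i; simp)
    (fun a b c => by funext i; simp [mul_add])
    (fun r a c => by funext i; simp))

theorem Rb_apply (a b : Hq) (i : Fin 3) : Rb a b i = nu (a * ei i * star b) := rfl

/-- the rotation matrix -/
def Rm (a : Hq) : M3 := Rb a a

theorem Rm_apply (a : Hq) (i : Fin 3) : Rm a i = nu (a * ei i * star a) := rfl

theorem Rm_smul (c : ℝ) (a : Hq) : Rm (c • a) = (c * c) • Rm a := by
  rw [Rm, map_smul, map_smul, _root_.smul_apply, smul_smul]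
  rfl

theorem Rm_neg (a : Hq) : Rm (-a) = Rm a := by
  have h := Rm_smul (-1) a
  rw [neg_one_smul] at h
  rw [h]
  norm_num

theorem smooth_Rm : ContDiff ℝ ∞ Rm := Rb.contDiff.clm_apply contDiff_id

/-- the immersion of `SO(3)` -/
def jQ : SO3 → M3 := lf (fun r => Rm (r : Hq)) (fun r => by
  rw [coe_neg_sphere, Rm_neg])

theorem jQ_pr (q : S3) : jQ (pr q) = Rm (q : Hq) := rfl

/-- smoothness of functions on `SO(3)` -/
theorem smooth_lf {F : Type*} [NormedAddCommGroup F] [NormedSpace ℝ F] {f : Hq → F}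
    (hf : ContDiff ℝ ∞ f) (he : ∀ r : S3, f ((-r : S3) : Hq) = f (r : Hq)) :
    ContMDiff (𝓡 3) 𝓘(ℝ, F) ∞ (lf (fun r : S3 => f (r : Hq)) he) := by
  intro x
  have hx : x ∈ (chartAt (EuclideanSpace ℝ (Fin 3)) x).source := mem_chart_source _ x
  have h1 : ContMDiffAt (𝓡 3) 𝓘(ℝ, R3) ∞ (ch (lft x)) x := by
    have := contMDiffAt_extChartAt (I := 𝓡 3) (n := ∞) (x := x)
    exact this
  have h2 : ContDiff ℝ ∞ (fun v : R3 => f (((lft x) : Hq) * (uS v : Hq))) :=
    hf.comp (contDiff_const.mul smooth_uS)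
  have h3 : ContMDiffAt (𝓡 3) 𝓘(ℝ, F) ∞ (fun y => f (((lft x) : Hq) * (uS (ch (lft x) y) : Hq))) x :=
    (h2.contMDiff.contMDiffAt (x := ch (lft x) x)).comp x h1
  refine h3.congr_of_eventuallyEq ?_
  filter_upwards [(ch (lft x)).open_source.mem_nhds hx] with y hy
  have h4 : (ch (lft x)).symm (ch (lft x) y) = y := (ch (lft x)).left_inv hy
  rw [ch_symm] at h4
  conv_lhs => rw [← h4]
  rfl

theorem smooth_jQ : ContMDiff (𝓡 3) 𝓘(ℝ, M3) ∞ jQ :=
  smooth_lf smooth_Rm _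

/-- the derivative of a function on `SO(3)` in the chart -/
theorem mvfderiv_SO3 {F : Type*} [NormedAddCommGroup F] [NormedSpace ℝ F] {f : SO3 → F}
    (hf : ContMDiff (𝓡 3) 𝓘(ℝ, F) ∞ f) (x : SO3) {L : R3 →L[ℝ] F}
    (h : HasFDerivAt (fun v : R3 => f (pr (lft x * uS v))) L 0) (v : TangentSpace (𝓡 3) x) :
    mvfderiv (𝓡 3) f x v = L v := by
  have h1 : MDifferentiableAt (𝓡 3) 𝓘(ℝ, F) f x := hf.mdifferentiableAt (by simp)
  have h0 : ch (lft x) x = 0 := by
    conv_lhs => rw [← pr_lft x]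
    rw [pr_lft, ← ch_self (lft x), pr_lft]
  have h2 : mfderiv (𝓡 3) 𝓘(ℝ, F) f x = fderivWithin ℝ (writtenInExtChartAt (𝓡 3) 𝓘(ℝ, F) x f)
      (Set.range (𝓡 3)) (extChartAt (𝓡 3) x x) := h1.mfderiv
  have h3 : (extChartAt (𝓡 3) x x) = (0 : R3) := h0
  have h4 : writtenInExtChartAt (𝓡 3) 𝓘(ℝ, F) x f = fun v : R3 => f (pr (lft x * uS v)) := rfl
  have h5 : mfderiv (𝓡 3) 𝓘(ℝ, F) f x = L := by
    rw [h2, h3, h4]
    have : Set.range (𝓡 3) = Set.univ := ModelWithCorners.range_eq_univ (𝓡 3)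
    rw [this, fderivWithin_univ]
    exact h.fderiv
  exact congrArg (fun T : R3 →L[ℝ] F => T v) h5

theorem star_iR (h : R3) : star (iR h) = -iR h := by
  rw [iR_apply]
  ext <;> simp

theorem nu_comm (a b : Hq) : nu (a * b - b * a) = (2 : ℝ) • crs (nu a) (nu b) := by
  ext i
  fin_cases i
  · simp [nu_apply, crs0]; ring
  · simp [nu_apply, crs1]; ring
  · simp [nu_apply, crs2]; ring

/-- the rotation attached to a quaternion -/
def rot (a : Hq) (h : R3) : R3 := nu (a * iR h * star a)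

theorem hasFDerivAt_Rm (q : S3) :
    ∃ L : R3 →L[ℝ] M3, HasFDerivAt (fun v : R3 => Rm ((q * uS v : S3) : Hq)) L 0 ∧
      ∀ h, L h = fun i => crs ((2 : ℝ) • rot q h) (Rm (q : Hq) i) := by
  have h1 : HasFDerivAt (fun v : R3 => (q : Hq) * Gq v) ((q : Hq) • iR) 0 := by
    have h2 : HasFDerivAt Gq iR 0 := by
      have e : Gq = fun v => 1 + iR v := funext Gq_eq
      rw [e]
      exact iR.hasFDerivAt.const_add 1
    exact h2.const_mul (q : Hq)
  have h2 : HasFDerivAt (fun v : R3 => Rb ((q : Hq) * Gq v)) (Rb.comp ((q : Hq) • iR)) 0 :=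
    HasFDerivAt.comp (f := fun v : R3 => (q : Hq) * Gq v) (g := fun a => Rb a) (0 : R3)
      (Rb.hasFDerivAt (x := (q : Hq) * Gq 0)) h1
  have h3 := h2.clm_apply h1
  have h4 : HasFDerivAt (fun v : R3 => (‖Gq v‖⁻¹ * ‖Gq v‖⁻¹ : ℝ)) (0 : R3 →L[ℝ] ℝ) 0 := by
    have e : (fun v : R3 => (‖Gq v‖⁻¹ * ‖Gq v‖⁻¹ : ℝ)) = fun v : R3 => (1 + ‖v‖ ^ 2)⁻¹ := by
      funext v
      rw [← mul_inv, ← sq, ← real_inner_self_eq_norm_sq, inner_quat, EuclideanSpace.norm_sq_eq,
        Fin.sum_univ_three]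
      simp [Gq]
      ring
    rw [e]
    have h5 : HasFDerivAt (fun v : R3 => 1 + ‖v‖ ^ 2) (0 : R3 →L[ℝ] ℝ) 0 := by
      have := (hasStrictFDerivAt_norm_sq (0 : R3)).hasFDerivAt
      simpa using this.const_add 1
    have h6 := (hasDerivAt_inv (x := (1 + ‖(0 : R3)‖ ^ 2 : ℝ)) (by norm_num)).comp_hasFDerivAt 0 h5
    rw [smul_zero] at h6
    exact h6
  have h5 := h4.smul h3
  refine ⟨_, h5.congr_of_eventuallyEq (Filter.Eventually.of_forall fun v => ?_), fun h => ?_⟩
  · change Rm ((q * uS v : S3) : Hq) = (‖Gq v‖⁻¹ * ‖Gq v‖⁻¹) • Rm ((q : Hq) * Gq v)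
    rw [Metric.unitSphere.coe_mul, coe_uS, mul_smul_comm, Rm_smul]
  · have h0 : Gq 0 = 1 := by rw [Gq_eq, map_zero, add_zero]
    funext i
    have e1 : star (iR h) = -iR h := star_iR h
    obtain ⟨a, ha⟩ : ∃ a : Hq, a = q * iR h * star (q : Hq) := ⟨_, rfl⟩
    obtain ⟨b, hb⟩ : ∃ b : Hq, b = q * ei i * star (q : Hq) := ⟨_, rfl⟩
    have e2 : (q : Hq) * iR h * ei i * star (q : Hq) = a * b := by
      rw [ha, hb]
      calc (q : Hq) * iR h * ei i * star (q : Hq)
          = (q : Hq) * iR h * 1 * ei i * star (q : Hq) := by rw [mul_one]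
        _ = (q : Hq) * iR h * (star (q : Hq) * (q : Hq)) * ei i * star (q : Hq) := by
            rw [star_mul_self_S]
        _ = _ := by simp only [mul_assoc]
    have e3 : (q : Hq) * ei i * (star (iR h) * star (q : Hq)) = -(b * a) := by
      rw [ha, hb, e1]
      calc (q : Hq) * ei i * (-iR h * star (q : Hq))
          = -((q : Hq) * ei i * 1 * iR h * star (q : Hq)) := by
            rw [mul_one, neg_mul, mul_neg]; simp only [mul_assoc]
        _ = -((q : Hq) * ei i * (star (q : Hq) * (q : Hq)) * iR h * star (q : Hq)) := by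
            rw [star_mul_self_S]
        _ = _ := by simp only [mul_assoc]
    have e4 := nu_comm a b
    simp [h0, Rb_apply, Rm_apply, rot]
    rw [e2, e3, ← ha, ← hb, ← e4, map_sub, map_neg]
    abel

end Pool.Agent.KS6_83.QS
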