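import Pool.Agent.KS6_83.QS.C

/-!
`S² × SO(3)` as an immersed manifold.
-/

open Bundle Manifold ContDiff ContinuousLinearMap Filter VectorField Metric
open scoped Topology RealInnerProductSpace Quaternion

set_option autoImplicit false
set_option linter.unusedSectionVars false

noncomputable section

namespace Pool.Agent.KS6_83.QS

open Pool.Agent.H878R5 Pool.Agent.H878R5.S23 Pool.Agent.H893R5.HO HopfPP

/-- columnwise cross product -/
def crsM : R3 →L[ℝ] M3 →L[ℝ] M3 :=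
  bil (LinearMap.mk₂ ℝ (fun w z => (fun i => crs w (z i) : M3))
    (fun a b c => by funext i; simp)
    (fun r a c => by funext i; simp)
    (fun a b c => by funext i; simp)
    (fun r a c => by funext i; simp))

theorem crsM_apply (w : R3) (z : M3) (i : Fin 3) : crsM w z i = crs w (z i) := rfl

/-- the momentum -/
def mom : M3 →L[ℝ] M3 →L[ℝ] R3 :=
  bil (LinearMap.mk₂ ℝ (fun z a => crs (z 0) (a 0) + crs (z 1) (a 1) + crs (z 2) (a 2))
    (fun a b c => by simp; abel)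
    (fun r a c => by simp)
    (fun a b c => by simp; abel)
    (fun r a c => by simp))

theorem mom_apply (z a : M3) : mom z a = crs (z 0) (a 0) + crs (z 1) (a 1) + crs (z 2) (a 2) := rfl

/-- the Euclidean pairing on triples of columns -/
def BQ : M3 →L[ℝ] M3 →L[ℝ] ℝ :=
  bil (LinearMap.mk₂ ℝ (fun z a => ⟪z 0, a 0⟫ + ⟪z 1, a 1⟫ + ⟪z 2, a 2⟫)
    (fun a b c => by simp only [Pi.add_apply, inner_add_left]; ring)
    (fun r a c => by simp only [Pi.smul_apply, real_inner_smul_left, smul_eq_mul]; ring)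
    (fun a b c => by simp only [Pi.add_apply, inner_add_right]; ring)
    (fun r a c => by simp only [Pi.smul_apply, real_inner_smul_right, smul_eq_mul]; ring))

theorem BQ_apply (z a : M3) : BQ z a = ⟪z 0, a 0⟫ + ⟪z 1, a 1⟫ + ⟪z 2, a 2⟫ := rfl

theorem inner_crs (z w a : R3) : ⟪crs w z, a⟫ = ⟪w, crs z a⟫ := by
  rw [inner_R3, inner_R3]
  simp only [dt, crs0, crs1, crs2]
  ring

theorem BQ_crsM (w : R3) (z a : M3) : BQ (crsM w z) a = ⟪w, mom z a⟫ := by
  rw [BQ_apply, mom_apply, inner_add_right, inner_add_right, crsM_apply, crsM_apply, crsM_apply,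
    inner_crs, inner_crs, inner_crs]

/-- the tangential projection -/
def PQ (z : M3) : M3 →L[ℝ] M3 := (crsM.flip z).comp ((1 / 2 : ℝ) • mom z)

theorem PQ_apply (z a : M3) : PQ z a = crsM ((1 / 2 : ℝ) • mom z a) z := rfl

theorem smooth_PQ : ContDiff ℝ ∞ PQ :=
  crsM.flip.contDiff.clm_comp (mom.contDiff.const_smul (1 / 2 : ℝ))

theorem PQ_symm (z a b : M3) : BQ (PQ z a) b = BQ a (PQ z b) := by
  have h : BQ a (PQ z b) = BQ (PQ z b) a := by
    rw [BQ_apply, BQ_apply, real_inner_comm, real_inner_comm (PQ z b 1), real_inner_comm (PQ z b 2)]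
  rw [h, PQ_apply, PQ_apply, BQ_crsM, BQ_crsM, real_inner_smul_left, real_inner_smul_left,
    real_inner_comm]

theorem unit_eq (q : S3) : (q : Hq).re * (q : Hq).re + (q : Hq).imI * (q : Hq).imI +
    (q : Hq).imJ * (q : Hq).imJ + (q : Hq).imK * (q : Hq).imK = 1 := norm_unit q

theorem mom_crsM (q : S3) (w : R3) : mom (Rm (q : Hq)) (crsM w (Rm (q : Hq))) = (2 : ℝ) • w := by
  have h := unit_eq q
  obtain ⟨a, ha⟩ : ∃ a : Hq, a = q := ⟨_, rfl⟩
  rw [← ha] at h ⊢
  rw [mom_apply, crsM_apply, crsM_apply, crsM_apply, Rm_apply, Rm_apply, Rm_apply]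
  ext k
  fin_cases k
  · simp [crs0, crs1, crs2, nu_apply, ei]
    linear_combination (2 * w.ofLp 0 * (a.re * a.re + a.imI * a.imI + a.imJ * a.imJ +
      a.imK * a.imK + 1)) * h
  · simp [crs0, crs1, crs2, nu_apply, ei]
    linear_combination (2 * w.ofLp 1 * (a.re * a.re + a.imI * a.imI + a.imJ * a.imJ +
      a.imK * a.imK + 1)) * h
  · simp [crs0, crs1, crs2, nu_apply, ei]
    linear_combination (2 * w.ofLp 2 * (a.re * a.re + a.imI * a.imI + a.imJ * a.imJ +
      a.imK * a.imK + 1)) * h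

theorem iR_nu {a : Hq} (ha : a.re = 0) : iR (nu a) = a := by
  rw [iR_apply, nu_apply]
  ext <;> simp [ha]

theorem nu_iR (w : R3) : nu (iR w) = w := by
  rw [iR_apply, nu_apply]
  ext i
  fin_cases i <;> simp

theorem re_conj (a : Hq) (h : R3) : (a * iR h * star a).re = 0 := by
  rw [iR_apply]
  simp
  ring

theorem rot_rot (q : S3) (h : R3) : rot (star (q : Hq)) (rot (q : Hq) h) = h := by
  unfold rot
  rw [iR_nu (re_conj _ _), star_star]
  have : star (q : Hq) * (↑q * iR h * star (q : Hq)) * ↑q =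
      (star (q : Hq) * ↑q) * iR h * (star (q : Hq) * ↑q) := by simp only [mul_assoc]
  rw [this, star_mul_self_S, one_mul, mul_one, nu_iR]

theorem rot_rot' (q : S3) (h : R3) : rot (q : Hq) (rot (star (q : Hq)) h) = h := by
  unfold rot
  rw [star_star]
  have e : (star (q : Hq) * iR h * (q : Hq)).re = 0 := by
    have := re_conj (star (q : Hq)) h
    rwa [star_star] at this
  rw [iR_nu e]
  have : (q : Hq) * (star (q : Hq) * iR h * ↑q) * star (q : Hq) =
      ((q : Hq) * star (q : Hq)) * iR h * ((q : Hq) * star (q : Hq)) := by simp only [mul_assoc]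
  rw [this, self_mul_star_S, one_mul, mul_one, nu_iR]

theorem crsM_inj (q : S3) {w : R3} (h : crsM w (Rm (q : Hq)) = 0) : w = 0 := by
  have h2 := mom_crsM q w
  rw [h, map_zero] at h2
  exact (smul_eq_zero.1 h2.symm).resolve_left two_ne_zero

/-- the derivative of the immersion of `SO(3)` -/
theorem d_jQ (x : SO3) (v : TangentSpace (𝓡 3) x) :
    mvfderiv (𝓡 3) jQ x v = crsM ((2 : ℝ) • rot (lft x : Hq) (v : R3)) (jQ x) := by
  obtain ⟨L, hL, hL2⟩ := hasFDerivAt_Rm (lft x)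
  have h := mvfderiv_SO3 smooth_jQ x hL v
  have e : jQ x = Rm (lft x : Hq) := by
    conv_lhs => rw [← pr_lft x]
    rfl
  refine h.trans ?_
  rw [e]
  exact hL2 v

theorem jQ_eq (x : SO3) : jQ x = Rm (lft x : Hq) := by
  conv_lhs => rw [← pr_lft x]
  rfl

theorem inj_jQ (x : SO3) (v : TangentSpace (𝓡 3) x) (h : mvfderiv (𝓡 3) jQ x v = 0) : v = 0 := by
  rw [d_jQ, jQ_eq] at h
  have h2 := crsM_inj _ h
  have h3 := (smul_eq_zero.1 h2).resolve_left two_ne_zero
  have h4 := rot_rot (lft x) (v : R3)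
  rw [h3] at h4
  have h5 : rot (star (lft x : Hq)) 0 = 0 := by
    unfold rot
    rw [map_zero, mul_zero, zero_mul, map_zero]
  exact h4.symm.trans h5

theorem PQ_d (x : SO3) (v : TangentSpace (𝓡 3) x) :
    PQ (jQ x) (mvfderiv (𝓡 3) jQ x v) = mvfderiv (𝓡 3) jQ x v := by
  rw [d_jQ, PQ_apply, jQ_eq, mom_crsM, smul_smul]
  norm_num

theorem rng_jQ (x : SO3) (a : M3) : ∃ v : TangentSpace (𝓡 3) x,
    mvfderiv (𝓡 3) jQ x v = PQ (jQ x) a := by
  obtain ⟨w, hw⟩ : ∃ w : R3, w = rot (star (lft x : Hq)) ((1 / 4 : ℝ) • mom (jQ x) a) := ⟨_, rfl⟩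
  refine ⟨w, (d_jQ x w).trans ?_⟩
  have h := rot_rot' (lft x) ((1 / 4 : ℝ) • mom (jQ x) a)
  rw [← hw] at h
  rw [PQ_apply, h, smul_smul]
  norm_num

/-! ### The product -/

/-- the ambient space of `S² × SO(3)` -/
abbrev A6 : Type := R3 × M3

/-- the Euclidean pairing on `ℝ³ × M3` -/
def B6 : A6 →L[ℝ] A6 →L[ℝ] ℝ :=
  bil (LinearMap.mk₂ ℝ (fun a b => ⟪a.1, b.1⟫ + BQ a.2 b.2)
    (fun a b c => by
      simp only [Prod.fst_add, Prod.snd_add, inner_add_left, map_add, _root_.add_apply]; ring)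
    (fun r a c => by
      simp only [Prod.smul_fst, Prod.smul_snd, real_inner_smul_left, map_smul, _root_.smul_apply,
        smul_eq_mul]; ring)
    (fun a b c => by
      simp only [Prod.fst_add, Prod.snd_add, inner_add_right, map_add]; ring)
    (fun r a c => by
      simp only [Prod.smul_fst, Prod.smul_snd, real_inner_smul_right, map_smul, smul_eq_mul]; ring))

theorem B6_apply (a b : A6) : B6 a b = ⟪a.1, b.1⟫ + BQ a.2 b.2 := rfl

theorem BQ_comm (a b : M3) : BQ a b = BQ b a := by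
  rw [BQ_apply, BQ_apply, real_inner_comm, real_inner_comm (b 1), real_inner_comm (b 2)]

theorem BQ_nonneg (a : M3) : 0 ≤ BQ a a := by
  rw [BQ_apply]
  have h0 : 0 ≤ ⟪a 0, a 0⟫ := real_inner_self_nonneg
  have h1 : 0 ≤ ⟪a 1, a 1⟫ := real_inner_self_nonneg
  have h2 : 0 ≤ ⟪a 2, a 2⟫ := real_inner_self_nonneg
  linarith

theorem BQ_pos {a : M3} (ha : a ≠ 0) : 0 < BQ a a := by
  refine lt_of_le_of_ne (BQ_nonneg a) fun h => ha ?_
  rw [BQ_apply] at h
  have h0 : 0 ≤ ⟪a 0, a 0⟫ := real_inner_self_nonneg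
  have h1 : 0 ≤ ⟪a 1, a 1⟫ := real_inner_self_nonneg
  have h2 : 0 ≤ ⟪a 2, a 2⟫ := real_inner_self_nonneg
  funext i
  fin_cases i
  · exact inner_self_eq_zero.1 (by linarith : ⟪a 0, a 0⟫ = 0)
  · exact inner_self_eq_zero.1 (by linarith : ⟪a 1, a 1⟫ = 0)
  · exact inner_self_eq_zero.1 (by linarith : ⟪a 2, a 2⟫ = 0)

/-- the projection for the sphere -/
def PS (z : R3) : R3 →L[ℝ] R3 := ContinuousLinearMap.id ℝ _ - (innerSL ℝ z).smulRight z

theorem PS_apply (z a : R3) : PS z a = a - ⟪z, a⟫ • z := rfl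

theorem smooth_PS : ContDiff ℝ ∞ PS :=
  contDiff_const.sub ((innerSL ℝ (E := R3)).contDiff.smulRight contDiff_id)

/-- the projection -/
def P6 (z : A6) : A6 →L[ℝ] A6 :=
  (ContinuousLinearMap.inl ℝ R3 M3).comp ((PS z.1).comp (ContinuousLinearMap.fst ℝ R3 M3)) +
  (ContinuousLinearMap.inr ℝ R3 M3).comp ((PQ z.2).comp (ContinuousLinearMap.snd ℝ R3 M3))

theorem P6_apply (z a : A6) : P6 z a = (PS z.1 a.1, PQ z.2 a.2) := by
  refine Prod.ext ?_ ?_
  · simp [P6]
  · simp [P6]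

theorem smooth_P6 : ContDiff ℝ ∞ P6 :=
  (contDiff_const.clm_comp ((smooth_PS.comp contDiff_fst).clm_comp contDiff_const)).add
    (contDiff_const.clm_comp ((smooth_PQ.comp contDiff_snd).clm_comp contDiff_const))

/-- the immersion of `S² × SO(3)` -/
def j6 (p : S2 × SO3) : A6 := ((p.1 : R3), jQ p.2)

theorem smooth_j6 : ContMDiff ((𝓡 2).prod (𝓡 3)) 𝓘(ℝ, A6) ∞ j6 :=
  ((contMDiff_coe_sphere (m := ∞) (E := R3) (n := 2)).comp contMDiff_fst).prodMk_space
    (smooth_jQ.comp contMDiff_snd)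

theorem d_j6 (p : S2 × SO3) (v : TangentSpace ((𝓡 2).prod (𝓡 3)) p) :
    mvfderiv ((𝓡 2).prod (𝓡 3)) j6 p v =
      (mvfderiv (𝓡 2) (fun x : S2 => (x : R3)) p.1 (v.1 : EuclideanSpace ℝ (Fin 2)),
       mvfderiv (𝓡 3) jQ p.2 (v.2 : EuclideanSpace ℝ (Fin 3))) := by
  have h : MDifferentiableAt ((𝓡 2).prod (𝓡 3)) 𝓘(ℝ, A6) j6 p :=
    smooth_j6.mdifferentiableAt (by simp)
  have h1 := d_clm' (ContinuousLinearMap.fst ℝ R3 M3) h v
  have h2 := d_clm' (ContinuousLinearMap.snd ℝ R3 M3) h v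
  refine Prod.ext ?_ ?_
  · refine h1.symm.trans ?_
    have k1 : MDifferentiableAt (𝓡 2) 𝓘(ℝ, R3) (fun x : S2 => (x : R3)) p.1 :=
      (contMDiff_coe_sphere (m := ∞)).mdifferentiableAt (by simp)
    have a2 := mfderiv_comp p (f := (Prod.fst : S2 × SO3 → S2))
      (g := fun x : S2 => (x : R3))
      (I := (𝓡 2).prod (𝓡 3)) (I' := 𝓡 2) (I'' := 𝓘(ℝ, R3)) k1 mdifferentiableAt_fst
    rw [mfderiv_fst] at a2
    exact congrArg (fun L : (EuclideanSpace ℝ (Fin 2) × EuclideanSpace ℝ (Fin 3)) →L[ℝ] R3 =>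
      L v) a2
  · refine h2.symm.trans ?_
    have k1 : MDifferentiableAt (𝓡 3) 𝓘(ℝ, M3) jQ p.2 :=
      smooth_jQ.mdifferentiableAt (by simp)
    have a2 := mfderiv_comp p (f := (Prod.snd : S2 × SO3 → SO3))
      (g := jQ)
      (I := (𝓡 2).prod (𝓡 3)) (I' := 𝓡 3) (I'' := 𝓘(ℝ, M3)) k1 mdifferentiableAt_snd
    rw [mfderiv_snd] at a2
    exact congrArg (fun L : (EuclideanSpace ℝ (Fin 2) × EuclideanSpace ℝ (Fin 3)) →L[ℝ] M3 =>
      L v) a2

/-- `S² × SO(3)` as an immersed manifold. -/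
def X : Emb ((𝓡 2).prod (𝓡 3)) (S2 × SO3) A6 where
  B := B6
  Bsymm a b := by
    rw [B6_apply, B6_apply, real_inner_comm, BQ_comm]
  Bpos a ha := by
    rw [B6_apply]
    have h1 : 0 ≤ ⟪a.1, a.1⟫ := real_inner_self_nonneg
    by_cases h2 : a.2 = 0
    · have h3 : a.1 ≠ 0 := fun h => ha (Prod.ext h h2)
      have h4 : 0 < ⟪a.1, a.1⟫ := real_inner_self_pos.2 h3
      have := BQ_nonneg a.2
      linarith
    · have := BQ_pos h2
      linarith
  j := j6
  hj := smooth_j6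
  inj p v h := by
    rw [d_j6] at h
    have h1 := congrArg Prod.fst h
    have h2 := congrArg Prod.snd h
    have l1 : (v.1 : EuclideanSpace ℝ (Fin 2)) = 0 :=
      injective_mvfderiv_subtypeVal_sphere (E := R3) (n := 2) p.1 (h1.trans (map_zero _).symm)
    have l2 : (v.2 : EuclideanSpace ℝ (Fin 3)) = 0 := inj_jQ p.2 _ h2
    exact Prod.ext l1 l2
  P := P6
  hP := smooth_P6
  Psymm p a b := by
    rw [P6_apply, P6_apply, B6_apply, B6_apply, PS_apply, PS_apply, PQ_symm]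
    simp only [inner_sub_left, inner_sub_right, real_inner_smul_left, real_inner_smul_right]
    rw [real_inner_comm (j6 p).1 a.1]
    ring
  Pd p v := by
    rw [d_j6, P6_apply]
    refine Prod.ext ?_ ?_
    · change PS (p.1 : R3) _ = _
      rw [PS_apply]
      have h1 : ⟪(p.1 : R3), mvfderiv (𝓡 2) (fun x : S2 => (x : R3)) p.1
          (v.1 : EuclideanSpace ℝ (Fin 2))⟫ = 0 := by
        have h : mvfderiv (𝓡 2) (fun x : S2 => (x : R3)) p.1
          (v.1 : EuclideanSpace ℝ (Fin 2)) ∈ (ℝ ∙ (p.1 : R3))ᗮ := by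
          rw [← range_mvfderiv_subtypeVal (E := R3) (n := 2) p.1]
          exact ⟨_, rfl⟩
        exact Submodule.mem_orthogonal_singleton_iff_inner_right.1 h
      rw [h1, zero_smul, sub_zero]
    · exact PQ_d p.2 _
  rng p a := by
    have h1 : a.1 - ⟪(p.1 : R3), a.1⟫ • (p.1 : R3) ∈ (ℝ ∙ (p.1 : R3))ᗮ :=
      Submodule.mem_orthogonal_singleton_iff_inner_right.2 (by
        rw [inner_sub_right, real_inner_smul_right, inner_self_sph]
        ring)
    rw [← range_mvfderiv_subtypeVal (E := R3) (n := 2) p.1] at h1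
    obtain ⟨v, hv⟩ := h1
    obtain ⟨w, hw⟩ := rng_jQ p.2 a.2
    refine ⟨((v : EuclideanSpace ℝ (Fin 2)), (w : EuclideanSpace ℝ (Fin 3))), ?_⟩
    refine (d_j6 p _).trans ?_
    rw [P6_apply]
    exact Prod.ext hv hw

end Pool.Agent.KS6_83.QS
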