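import Pool.Agent.KS6_83.QS.D

/-!
The action of the Lie algebra `ℝ³ × ℝ³` on `S² × SO(3)` by rotations and left multiplications, and the
positivity of the curvature expression.
-/

open Bundle Manifold ContDiff ContinuousLinearMap Filter VectorField Metric
open scoped Topology RealInnerProductSpace Quaternion

set_option autoImplicit false
set_option linter.unusedSectionVars false

noncomputable section

namespace Pool.Agent.KS6_83.QS

open Pool.Agent.H821R2 H907H Pool.Agent.H878R5 Pool.Agent.H893R5.HO HopfPP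
open Pool.Agent.H821R3 hiding S2
open Pool.Agent.H878R5.S23 hiding act act_apply X_B X_j X_P Y Y_E pj pj_apply pj_E dt_unit exists_E
  J_inj WD WD_apply com x_perp_J Gamma_perp Pexp_pos X

theorem X_B (a b : A6) : X.B a b = ⟪a.1, b.1⟫ + BQ a.2 b.2 := rfl

theorem X_j (p : S2 × SO3) : X.j p = ((p.1 : R3), jQ p.2) := rfl

theorem X_P (z a : A6) : X.P z a = (a.1 - ⟪z.1, a.1⟫ • z.1, crsM ((1 / 2 : ℝ) • mom z.2 a.2) z.2) :=
  P6_apply z a

/-- the action of the Lie algebra -/
def act : V6 ℝ →L[ℝ] A6 →L[ℝ] A6 :=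
  bil (LinearMap.mk₂ ℝ (fun w z => ((cr3 w.1 z.1, crsM (WithLp.toLp 2 w.2) z.2) : A6))
    (fun a b c => by
      refine Prod.ext ?_ ?_
      · ext i; fin_cases i <;> simp [cr3, cx] <;> ring
      · simp)
    (fun r a c => by
      refine Prod.ext ?_ ?_
      · ext i; fin_cases i <;> simp [cr3, cx] <;> ring
      · simp)
    (fun a b c => by
      refine Prod.ext ?_ ?_
      · ext i; fin_cases i <;> simp [cr3, cx] <;> ring
      · simp)
    (fun r a c => by
      refine Prod.ext ?_ ?_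
      · ext i; fin_cases i <;> simp [cr3, cx] <;> ring
      · simp))

theorem act_apply (w : V6 ℝ) (z : A6) :
    act w z = (cr3 w.1 z.1, crsM (WithLp.toLp 2 w.2) z.2) := rfl

theorem crsM_jQ (x : SO3) (w : R3) : crsM ((1 / 2 : ℝ) • mom (jQ x) (crsM w (jQ x))) (jQ x) =
    crsM w (jQ x) := by
  rw [jQ_eq, mom_crsM, smul_smul]
  norm_num

/-- the action -/
def Y : LA X where
  E := act
  lie h t z := by
    rw [act_apply, act_apply, act_apply, act_apply, act_apply]
    refine Prod.ext ?_ ?_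
    · ext i; fin_cases i <;> simp [cr3, cx, cx6] <;> ring
    · funext k
      simp only [Prod.snd_sub, Pi.sub_apply, crsM_apply]
      ext i; fin_cases i <;> simp [crs0, crs1, crs2, cx, cx6] <;> ring
  tan h p := by
    rw [X_P, act_apply]
    refine Prod.ext ?_ ?_
    · simp only [inner_cr3, zero_smul, sub_zero]
    · exact crsM_jQ p.2 _

theorem Y_E (w : V6 ℝ) (z : A6) : Y.E w z = (cr3 w.1 z.1, crsM (WithLp.toLp 2 w.2) z.2) := rfl

/-- projection to the coordinates of the first factor -/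
def pj : A6 →L[ℝ] V ℝ :=
  LinearMap.toContinuousLinearMap
    { toFun := fun z => z.1.ofLp
      map_add' := fun _ _ => rfl
      map_smul' := fun _ _ => rfl }

theorem pj_apply (z : A6) : pj z = z.1.ofLp := rfl

theorem pj_E (w : V6 ℝ) (z : A6) : pj (Y.E w z) = cx w.1 (pj z) := rfl

theorem dt_unit (p : S2 × SO3) : dt (pj (X.j p)) (pj (X.j p)) = 1 := by
  have h := inner_self_sph p.1
  rw [inner_R3] at h
  exact h

/-- every tangent vector comes from the action -/
theorem exists_E (p : S2 × SO3) (a : A6) (ha : X.P (X.j p) a = a) : ∃ w, Y.E w (X.j p) = a := by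
  rw [X_P] at ha
  have h1 : ⟪(p.1 : R3), a.1⟫ = 0 := by
    have h := congrArg Prod.fst ha
    simp only [X_j, sub_eq_self] at h
    have h2 := congrArg (fun v => ⟪(p.1 : R3), v⟫) h
    simp only [real_inner_smul_right, inner_self_sph, mul_one, inner_zero_right] at h2
    exact h2
  have h2 := congrArg Prod.snd ha
  simp only [X_j] at h2
  have u1 := inner_self_sph p.1
  obtain ⟨x, hx⟩ : ∃ x : R3, x = p.1 := ⟨_, rfl⟩
  rw [← hx] at h1 u1
  have hj : X.j p = (x, jQ p.2) := by rw [X_j, hx]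
  rw [hj]
  rw [inner_R3] at h1 u1
  refine ⟨(cx x.ofLp a.1.ofLp, ((1 / 2 : ℝ) • mom (jQ p.2) a.2).ofLp), ?_⟩
  rw [Y_E]
  refine Prod.ext ?_ h2
  simp only [dt] at h1 u1
  ext i
  fin_cases i
  · simp [cr3, cx]
    linear_combination a.1.ofLp 0 * u1 - x.ofLp 0 * h1
  · simp [cr3, cx]
    linear_combination a.1.ofLp 1 * u1 - x.ofLp 1 * h1
  · simp [cr3, cx]
    linear_combination a.1.ofLp 2 * u1 - x.ofLp 2 * h1

/-- the momentum is injective on tangent covectors -/
theorem J_inj (p : S2 × SO3) (a : A6) (ha : X.P (X.j p) a = a) (h : Y.J (X.j p) a = 0) :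
    a = 0 := by
  obtain ⟨w, hw⟩ := exists_E p a ha
  by_contra hne
  have h1 := X.Bpos a hne
  have h2 := Y.dt6_J (X.j p) a w
  rw [hw, h] at h2
  simp [dt6, dt] at h2
  linarith

variable {D : Dat ℝ}

/-- the cometric on `S² × SO(3)` -/
def WD (D : Dat ℝ) : A6 → A6 →L[ℝ] A6 := Y.W (LA.KD D pj)

theorem WD_apply (z a : A6) : WD D z a = Y.E (KK D (pj z) (Y.J z a)) z := rfl

theorem com (hW : SymM D.W) (hQ : SymM D.Q)
    (hpos : ∀ (x : V ℝ) (a : V6 ℝ), dt x x = 1 → a ≠ 0 → 0 < dt6 a (KK D x a)) :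
    X.Com (WD D) where
  smooth := Y.smooth_W (LA.smooth_Ka _ _)
  symm z a b := by
    rw [X.Bsymm, WD, Y.B_W, Y.B_W]
    exact LA.Ka_symm' (K0D D) ((TD D).comp pj) (K0D_symm hW hQ)
      (fun ζ u v => TD_symm D (pj ζ) u v) z _ _
  tan p a := Y.tan _ p
  pos p a ha hne := by
    rw [WD, Y.B_W]
    exact hpos _ _ (dt_unit p) fun h => hne (J_inj p a ha h)

theorem E_self (p : S2 × SO3) : Y.E (pj (X.j p), 0) (X.j p) = 0 := by
  rw [Y_E]
  refine Prod.ext ?_ ?_
  · ext i; fin_cases i <;> simp [cr3, cx, pj_apply] <;> ring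
  · change crsM (WithLp.toLp 2 0) _ = 0
    rw [WithLp.toLp_zero, map_zero]
    rfl

theorem x_perp_J (p : S2 × SO3) (a : A6) : dt (pj (X.j p)) (Y.J (X.j p) a).1 = 0 := by
  have h := Y.dt6_J (X.j p) a (pj (X.j p), 0)
  rw [E_self p, map_zero] at h
  simp only [dt6, dt] at h ⊢
  simp at h
  linarith

theorem Gamma_perp (p : S2 × SO3) (a b γ : A6) :
    dt (pj (X.j p)) (Y.J (X.j p) γ + (cx6 (Y.J (X.j p) a) (KK D (pj (X.j p)) (Y.J (X.j p) b)) -
        cx6 (Y.J (X.j p) b) (KK D (pj (X.j p)) (Y.J (X.j p) a))) -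
          (Y.J (Y.E (KK D (pj (X.j p)) (Y.J (X.j p) a)) (X.j p)) b -
            Y.J (Y.E (KK D (pj (X.j p)) (Y.J (X.j p) b)) (X.j p)) a)).1 = 0 := by
  obtain ⟨A, hA⟩ : ∃ A, A = KK D (pj (X.j p)) (Y.J (X.j p) a) := ⟨_, rfl⟩
  obtain ⟨B, hB⟩ : ∃ B, B = KK D (pj (X.j p)) (Y.J (X.j p) b) := ⟨_, rfl⟩
  rw [← hA, ← hB]
  have c1 := Y.closed (X.j p) b A (pj (X.j p), 0)
  have c2 := Y.closed (X.j p) a B (pj (X.j p), 0)
  rw [E_self p] at c1 c2
  have hg := x_perp_J p γ
  have z0 : ∀ c w, dt6 (Y.J 0 c) w = 0 := fun c w => by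
    rw [map_zero]; simp [dt6, dt]
  rw [z0] at c1 c2
  simp only [dt6, dt, cx6, cx, Prod.fst_add, Prod.fst_sub, Pi.add_apply, Pi.sub_apply,
    Matrix.cons_val, Pi.zero_apply] at c1 c2 hg ⊢
  linear_combination hg - c1 + c2

/-- **positivity of the curvature expression** -/
theorem Pexp_pos (hW : SymM D.W) (hQ : SymM D.Q) (hP : PosON D) (hG : GL2Law D)
    (p : S2 × SO3) (a b γ : A6) (ha : X.P (X.j p) a = a) (hb : X.P (X.j p) b = b)
    (haa : X.B a a = 1) (hbb : X.B b b = 1) (hab : X.B a b = 0) :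
    0 < X.Pexp (WD D) (X.j p) a b γ := by
  have h := Y.Pexp_eq_PP D hW hQ pj pj_E (X.j p) a b γ
  have hpos : 0 < 4 * X.Pexp (WD D) (X.j p) a b γ := by
    rw [WD, h]
    refine pos_LI hP hG _ _ _ _ (dt_unit p) (x_perp_J p a) (x_perp_J p b) (Gamma_perp p a b γ) ?_
    intro r s hrs
    have h1 : Y.J (X.j p) (r • a + s • b) = 0 := by rw [map_add, map_smul, map_smul, hrs]
    have h2 : X.P (X.j p) (r • a + s • b) = r • a + s • b := by
      rw [map_add, map_smul, map_smul, ha, hb]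
    have h3 := J_inj p _ h2 h1
    have h4 := congrArg (X.B a) h3
    have h5 := congrArg (X.B b) h3
    rw [map_add, map_smul, map_smul, haa, hab, map_zero] at h4
    rw [map_add, map_smul, map_smul, hbb, X.Bsymm b a, hab, map_zero] at h5
    simp only [smul_eq_mul, mul_one, mul_zero, add_zero, zero_add] at h4 h5
    exact ⟨h4, h5⟩
  linarith

end Pool.Agent.KS6_83.QS
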