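import Pool.Agent.KS6_83.QS.E

/-!
Smoothness of the projection `S³ → SO(3)` (a local diffeomorphism) and of the group operations of
`SO(3)`.
-/

open Bundle Manifold ContDiff ContinuousLinearMap Filter VectorField Metric
open scoped Topology RealInnerProductSpace Quaternion

set_option autoImplicit false
set_option linter.unusedSectionVars false

noncomputable section

namespace Pool.Agent.KS6_83.QS

open Pool.Agent.H878R5.S23 Pool.Agent.H893R5.HO

theorem ch_mem (q : S3) : ch q ∈ IsManifold.maximalAtlas (𝓡 3) ∞ SO3 :=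
  IsManifold.subset_maximalAtlas ⟨q, rfl⟩

theorem smoothOn_ch (q : S3) : ContMDiffOn (𝓡 3) (𝓡 3) ∞ (ch q) (src q) :=
  contMDiffOn_of_mem_maximalAtlas (ch_mem q)

theorem smoothAt_ch {q : S3} {x : SO3} (hx : x ∈ src q) : ContMDiffAt (𝓡 3) (𝓡 3) ∞ (ch q) x :=
  (smoothOn_ch q).contMDiffAt ((isOpen_src q).mem_nhds hx)

/-- maps into `SO(3)` given by a lift -/
theorem smooth_of_lift {E' : Type*} [NormedAddCommGroup E'] [NormedSpace ℝ E']
    {H' : Type*} [TopologicalSpace H'] {I' : ModelWithCorners ℝ E' H'}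
    {M' : Type*} [TopologicalSpace M'] [ChartedSpace H' M'] {f : M' → SO3} {x : M'}
    (hf : ContinuousAt f x) {g : M' → Hq} (hg : ContMDiffAt I' 𝓘(ℝ, Hq) ∞ g x)
    (h : ∀ᶠ y in 𝓝 x, ∃ r : S3, (r : Hq) = g y ∧ pr r = f y) :
    ContMDiffAt I' (𝓡 3) ∞ f x := by
  rw [contMDiffAt_iff_target]
  refine ⟨hf, ?_⟩
  obtain ⟨q, hq⟩ : ∃ q, q = lft (f x) := ⟨_, rfl⟩
  have hq2 : pr q = f x := by rw [hq, pr_lft]
  have e1 : (extChartAt (𝓡 3) (f x) ∘ f : M' → R3) =ᶠ[𝓝 x]
      fun y => Fc (star (q : Hq) * g y) := by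
    filter_upwards [h] with y hy
    obtain ⟨r, h1, h2⟩ := hy
    have h3 : (extChartAt (𝓡 3) (f x) ∘ f : M' → R3) y = ch q (f y) := by rw [hq]; rfl
    rw [h3, ← h2, ch_pr, h1]
  refine ContMDiffAt.congr_of_eventuallyEq ?_ e1
  have h4 : (star (q : Hq) * g x).re ≠ 0 := by
    obtain ⟨r, h1, h2⟩ := h.self_of_nhds
    rw [← h1, ← mem_src, h2, ← hq2]
    exact self_mem_src q
  have h5 : ContDiffAt ℝ ∞ (fun a : Hq => Fc (star (q : Hq) * a)) (g x) :=
    ContDiffAt.comp (g := Fc) (f := fun a : Hq => star (q : Hq) * a) (g x) (contDiffAt_Fc h4)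
      (contDiffAt_const.mul contDiffAt_id)
  exact ContMDiffAt.comp (g := fun a : Hq => Fc (star (q : Hq) * a)) x h5.contMDiffAt hg

/-- the projection is smooth -/
theorem smooth_pr : ContMDiff (𝓡 3) (𝓡 3) ∞ (pr : S3 → SO3) := fun x =>
  smooth_of_lift continuous_pr.continuousAt
    ((contMDiff_coe_sphere (m := ∞) (E := Hq) (n := 3)) x)
    (Filter.Eventually.of_forall fun y => ⟨y, rfl, rfl⟩)

/-- the local section as a map to quaternions -/
def sg (q : S3) (x : SO3) : S3 := q * uS (ch q x)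

theorem pr_sg {q : S3} {x : SO3} (hx : x ∈ src q) : pr (sg q x) = x :=
  (ch q).left_inv hx

theorem smoothAt_sg {q : S3} {x : SO3} (hx : x ∈ src q) :
    ContMDiffAt (𝓡 3) 𝓘(ℝ, Hq) ∞ (fun y => (sg q y : Hq)) x := by
  have h1 : ContDiff ℝ ∞ (fun v : R3 => (q : Hq) * (uS v : Hq)) :=
    contDiff_const.mul smooth_uS
  exact ContMDiffAt.comp (g := fun v : R3 => (q : Hq) * (uS v : Hq)) x
    h1.contMDiff.contMDiffAt (smoothAt_ch hx)

theorem lft_mem_src (x : SO3) : x ∈ src (lft x) := by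
  have := self_mem_src (lft x)
  rwa [pr_lft] at this

instance topGroupSO3 : IsTopologicalGroup SO3 := inferInstance

/-- division is smooth -/
theorem smooth_div : ContMDiff ((𝓡 3).prod (𝓡 3)) (𝓡 3) ∞ (fun q : SO3 × SO3 => q.2 * q.1⁻¹) := by
  rintro ⟨x, y⟩
  have hc : Continuous (fun q : SO3 × SO3 => q.2 * q.1⁻¹) :=
    continuous_snd.mul continuous_fst.inv
  have h1 : ContMDiffAt ((𝓡 3).prod (𝓡 3)) 𝓘(ℝ, Hq) ∞
      (fun q : SO3 × SO3 => (sg (lft x) q.1 : Hq)) (x, y) :=
    ContMDiffAt.comp (g := fun z => (sg (lft x) z : Hq)) (x, y) (smoothAt_sg (lft_mem_src x))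
      contMDiffAt_fst
  have h2 : ContMDiffAt ((𝓡 3).prod (𝓡 3)) 𝓘(ℝ, Hq) ∞
      (fun q : SO3 × SO3 => (sg (lft y) q.2 : Hq)) (x, y) :=
    ContMDiffAt.comp (g := fun z => (sg (lft y) z : Hq)) (x, y) (smoothAt_sg (lft_mem_src y))
      contMDiffAt_snd
  have hm : ContDiff ℝ ∞ (fun q : Hq × Hq => q.1 * conj q.2) :=
    contDiff_fst.mul (conj.contDiff.comp contDiff_snd)
  have h3 : ContMDiffAt ((𝓡 3).prod (𝓡 3)) 𝓘(ℝ, Hq) ∞
      (fun q : SO3 × SO3 => (sg (lft y) q.2 : Hq) * star (sg (lft x) q.1 : Hq)) (x, y) :=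
    ContMDiffAt.comp (g := fun q : Hq × Hq => q.1 * conj q.2) (x, y) hm.contMDiff.contMDiffAt
      (h2.prodMk_space h1)
  refine smooth_of_lift hc.continuousAt h3 ?_
  have o1 : ∀ᶠ q : SO3 × SO3 in 𝓝 (x, y), q.1 ∈ src (lft x) :=
    continuous_fst.continuousAt.preimage_mem_nhds ((isOpen_src _).mem_nhds (lft_mem_src x))
  have o2 : ∀ᶠ q : SO3 × SO3 in 𝓝 (x, y), q.2 ∈ src (lft y) :=
    continuous_snd.continuousAt.preimage_mem_nhds ((isOpen_src _).mem_nhds (lft_mem_src y))
  filter_upwards [o1, o2] with q k1 k2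
  refine ⟨sg (lft y) q.2 * (sg (lft x) q.1)⁻¹, ?_, ?_⟩
  · rw [Metric.unitSphere.coe_mul, inv_coe]
  · change pr (sg (lft y) q.2) * (pr (sg (lft x) q.1))⁻¹ = _
    rw [pr_sg k1, pr_sg k2]

/-- `SO(3)` is a Lie group. -/
instance lieSO3 : LieGroup (𝓡 3) ∞ SO3 where
  contMDiff_mul := by
    have hi : ContMDiff (𝓡 3) (𝓡 3) ∞ (fun a : SO3 => a⁻¹) := by
      have h := smooth_div.comp (f := fun a : SO3 => (a, (1 : SO3)))
        (contMDiff_id.prodMk contMDiff_const)
      have e : ((fun q : SO3 × SO3 => q.2 * q.1⁻¹) ∘ fun a : SO3 => (a, (1 : SO3))) =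
          fun a => a⁻¹ := by
        funext a
        simp
      rwa [e] at h
    have h := smooth_div.comp (f := fun a : SO3 × SO3 => (a.2⁻¹, a.1))
      ((hi.comp contMDiff_snd).prodMk contMDiff_fst)
    have e : ((fun q : SO3 × SO3 => q.2 * q.1⁻¹) ∘ fun a : SO3 × SO3 => (a.2⁻¹, a.1)) =
        fun a => a.1 * a.2 := by
      funext a
      simp
    rwa [e] at h
  contMDiff_inv := by
    have h := smooth_div.comp (f := fun a : SO3 => (a, (1 : SO3)))
      (contMDiff_id.prodMk contMDiff_const)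
    have e : ((fun q : SO3 × SO3 => q.2 * q.1⁻¹) ∘ fun a : SO3 => (a, (1 : SO3))) =
        fun a => a⁻¹ := by
      funext a
      simp
    rwa [e] at h

/-- the projection is a local diffeomorphism -/
theorem localDiffeo_pr : IsLocalDiffeomorph (𝓡 3) (𝓡 3) ∞ (pr : S3 → SO3) := by
  intro q
  have hsm : ContMDiff (𝓡 3) (𝓡 3) ∞ (fun v : R3 => q * uS v : R3 → S3) := by
    have h1 : ContDiff ℝ ∞ (fun v : R3 => (q : Hq) * (uS v : Hq)) :=
      contDiff_const.mul smooth_uS
    have hs : ∀ v : R3, (q : Hq) * (uS v : Hq) ∈ sphere (0 : Hq) 1 := by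
      intro v
      rw [← Metric.unitSphere.coe_mul]
      exact (q * uS v).2
    have h3 := h1.contMDiff.codRestrict_sphere (n := 3) hs
    have e : (fun v : R3 => q * uS v : R3 → S3) =
        fun v => Set.codRestrict (fun v : R3 => (q : Hq) * (uS v : Hq)) (sphere (0 : Hq) 1) hs v := by
      funext v
      exact Subtype.ext (Metric.unitSphere.coe_mul _ _)
    rw [e]
    exact h3
  have hopen : IsOpen {r : S3 | 0 < (star (q : Hq) * (r : Hq)).re} := by
    have h : Continuous fun r : S3 => reL (star (q : Hq) * (r : Hq)) :=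
      reL.continuous.comp (continuous_const.mul continuous_subtype_val)
    exact isOpen_lt continuous_const h
  refine ⟨{ toFun := pr
            invFun := fun x => q * uS (ch q x)
            source := {r | 0 < (star (q : Hq) * (r : Hq)).re}
            target := src q
            map_source' := fun r hr => mem_src.2 (ne_of_gt hr)
            map_target' := fun x _ => ?_
            left_inv' := fun r hr => ?_
            right_inv' := fun x hx => (ch q).left_inv hx
            open_source := hopen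
            open_target := isOpen_src q
            contMDiffOn_toFun := smooth_pr.contMDiffOn
            contMDiffOn_invFun := hsm.comp_contMDiffOn (smoothOn_ch q) }, ?_, fun _ _ => rfl⟩
  · change 0 < (star (q : Hq) * ((q * uS (ch q x) : S3) : Hq)).re
    rw [Metric.unitSphere.coe_mul, ← mul_assoc, star_mul_self_S, one_mul, coe_uS,
      Quaternion.re_smul, smul_eq_mul, re_Gq, mul_one]
    exact inv_pos.2 (norm_pos_iff.2 (Gq_ne _))
  · have hr' : 0 < (star (q : Hq) * (r : Hq)).re := hr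
    rw [ch_pr]
    obtain ⟨a, ha⟩ : ∃ a : Hq, a = star (q : Hq) * (r : Hq) := ⟨_, rfl⟩
    have hra : (q : Hq) * a = r := by rw [ha, ← mul_assoc, self_mul_star_S, one_mul]
    have hn : ‖a‖ = 1 := by rw [ha, norm_star_mul]
    rw [← ha] at hr' ⊢
    apply Subtype.ext
    rw [Metric.unitSphere.coe_mul, coe_uS, Gq_Fc hr'.ne', norm_smul, hn, mul_one, norm_inv,
        inv_inv, smul_smul, mul_smul_comm, hra, Real.norm_eq_abs, abs_of_pos hr',
        mul_inv_cancel₀ hr'.ne', one_smul]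
  · change 0 < (star (q : Hq) * (q : Hq)).re
    rw [star_mul_self_S]
    exact one_pos

end Pool.Agent.KS6_83.QS
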