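import Pool.Agent.KS6_83.QS.F

/-!
The right action of `SO(3)` on `S² × SO(3)` is free, smooth and isometric.
-/

open Bundle Manifold ContDiff ContinuousLinearMap Filter VectorField Metric
open scoped Topology RealInnerProductSpace Quaternion

set_option autoImplicit false
set_option linter.unusedSectionVars false

noncomputable section

namespace Pool.Agent.KS6_83.QS

open Pool.Agent.H821R2 H907H Pool.Agent.H878R5 Pool.Agent.H893R5.HO HopfPP
open Pool.Agent.H821R3 hiding S2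
open Pool.Agent.H878R5.S23 hiding act act_apply X_B X_j X_P Y Y_E pj pj_apply pj_E dt_unit exists_E
  J_inj WD WD_apply com x_perp_J Gamma_perp Pexp_pos X RR RR_apply B_RR E_RR J_RR W_RR P_RR
  isometric main compact_connected

/-- the action of a rotation `h`: `(x, r) ↦ (x, r h⁻¹)` -/
def ractQ (h : SO3) (p : S2 × SO3) : S2 × SO3 := (p.1, p.2 * h⁻¹)

theorem ractQ_one (p : S2 × SO3) : ractQ 1 p = p := by
  simp [ractQ]

theorem ractQ_mul (a b : SO3) (p : S2 × SO3) : ractQ (a * b) p = ractQ a (ractQ b p) := by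
  simp [ractQ, mul_assoc]

theorem ractQ_free (a : SO3) (p : S2 × SO3) (h : ractQ a p = p) : a = 1 := by
  have h2 := congrArg Prod.snd h
  simpa [ractQ] using h2

theorem smooth_ractQ : ContMDiff ((𝓡 3).prod ((𝓡 2).prod (𝓡 3))) ((𝓡 2).prod (𝓡 3)) ∞
    (fun q : SO3 × (S2 × SO3) => ractQ q.1 q.2) := by
  have h1 : ContMDiff ((𝓡 3).prod ((𝓡 2).prod (𝓡 3))) (𝓡 2) ∞
      (fun q : SO3 × (S2 × SO3) => q.2.1) := contMDiff_fst.comp contMDiff_snd
  have h2 : ContMDiff ((𝓡 3).prod ((𝓡 2).prod (𝓡 3))) ((𝓡 3).prod (𝓡 3)) ∞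
      (fun q : SO3 × (S2 × SO3) => (q.1, q.2.2)) :=
    contMDiff_fst.prodMk (contMDiff_snd.comp contMDiff_snd)
  exact h1.prodMk (smooth_div.comp h2)

theorem smooth_ractQ1 (h : SO3) : ContMDiff ((𝓡 2).prod (𝓡 3)) ((𝓡 2).prod (𝓡 3)) ∞ (ractQ h) :=
  smooth_ractQ.comp (contMDiff_const.prodMk contMDiff_id)

/-- recombination of columns -/
def cmb (M : M3) : M3 →L[ℝ] M3 :=
  LinearMap.toContinuousLinearMap
    { toFun := fun z j => (M j).ofLp 0 • z 0 + (M j).ofLp 1 • z 1 + (M j).ofLp 2 • z 2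
      map_add' := fun a b => by
        funext j
        simp only [Pi.add_apply, smul_add]
        abel
      map_smul' := fun r a => by
        funext j
        simp only [Pi.smul_apply, smul_add, RingHom.id_apply, smul_smul, mul_comm] }

theorem cmb_apply (M z : M3) (j : Fin 3) :
    cmb M z j = (M j).ofLp 0 • z 0 + (M j).ofLp 1 • z 1 + (M j).ofLp 2 • z 2 := rfl

/-- the linear map of the ambient space -/
def RR (M : M3) : A6 →L[ℝ] A6 :=
  (ContinuousLinearMap.fst ℝ R3 M3).prod ((cmb M).comp (ContinuousLinearMap.snd ℝ R3 M3))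

theorem RR_apply (M : M3) (z : A6) : RR M z = (z.1, cmb M z.2) := rfl

/-- multiplication rule for rotation matrices -/
theorem Rm_mul (q h : S3) :
    Rm ((q : Hq) * star (h : Hq)) = cmb (Rm (star (h : Hq))) (Rm (q : Hq)) := by
  funext j
  obtain ⟨a, ha⟩ : ∃ a : Hq, a = q := ⟨_, rfl⟩
  obtain ⟨b, hb⟩ : ∃ b : Hq, b = star (h : Hq) := ⟨_, rfl⟩
  rw [← ha, ← hb, cmb_apply, Rm_apply, Rm_apply, Rm_apply, Rm_apply, Rm_apply]
  ext k
  fin_cases j <;> fin_cases k <;> simp [nu_apply, ei] <;> ring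

theorem j_ractQ (h : S3) (p : S2 × SO3) :
    X.j (ractQ (pr h) p) = RR (Rm (star (h : Hq))) (X.j p) := by
  obtain ⟨q, hq⟩ := surjective_pr p.2
  rw [RR_apply, X_j, X_j]
  refine Prod.ext rfl ?_
  change jQ (p.2 * (pr h)⁻¹) = cmb _ (jQ p.2)
  rw [← hq]
  change Rm ((q * h⁻¹ : S3) : Hq) = cmb _ (Rm (q : Hq))
  rw [Metric.unitSphere.coe_mul, inv_coe, Rm_mul]

/-- orthonormality of the rows of the rotation matrix -/
theorem rows (h : S3) (i k : Fin 3) :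
    (Rm (h : Hq) 0).ofLp i * (Rm (h : Hq) 0).ofLp k + (Rm (h : Hq) 1).ofLp i * (Rm (h : Hq) 1).ofLp k
      + (Rm (h : Hq) 2).ofLp i * (Rm (h : Hq) 2).ofLp k = if i = k then 1 else 0 := by
  have hu := unit_eq h
  obtain ⟨a, ha⟩ : ∃ a : Hq, a = h := ⟨_, rfl⟩
  rw [← ha] at hu ⊢
  rw [Rm_apply, Rm_apply, Rm_apply]
  fin_cases i <;> fin_cases k <;> simp [nu_apply, ei]
  · linear_combination (a.re * a.re + a.imI * a.imI + a.imJ * a.imJ + a.imK * a.imK + 1) * hu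
  · ring
  · ring
  · ring
  · linear_combination (a.re * a.re + a.imI * a.imI + a.imJ * a.imJ + a.imK * a.imK + 1) * hu
  · ring
  · ring
  · ring
  · linear_combination (a.re * a.re + a.imI * a.imI + a.imJ * a.imJ + a.imK * a.imK + 1) * hu

theorem BQ_cmb (h : S3) (z a : M3) : BQ (cmb (Rm (h : Hq)) z) (cmb (Rm (h : Hq)) a) = BQ z a := by
  have r := rows h
  have r00 := r 0 0
  have r01 := r 0 1
  have r02 := r 0 2
  have r11 := r 1 1
  have r12 := r 1 2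
  have r22 := r 2 2
  obtain ⟨M, hM⟩ : ∃ M, M = Rm (h : Hq) := ⟨_, rfl⟩
  rw [← hM] at r00 r01 r02 r11 r12 r22 ⊢
  simp only [if_true, Fin.isValue] at r00 r11 r22
  rw [if_neg (by decide)] at r01 r02 r12
  rw [BQ_apply, BQ_apply]
  simp only [cmb_apply, inner_add_left, inner_add_right, real_inner_smul_left,
    real_inner_smul_right]
  linear_combination ⟪z 0, a 0⟫ * r00 + (⟪z 0, a 1⟫ + ⟪z 1, a 0⟫) * r01 +
    (⟪z 0, a 2⟫ + ⟪z 2, a 0⟫) * r02 + ⟪z 1, a 1⟫ * r11 + (⟪z 1, a 2⟫ + ⟪z 2, a 1⟫) * r12 +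
    ⟪z 2, a 2⟫ * r22

theorem star_S (h : S3) : ∃ k : S3, (k : Hq) = star (h : Hq) := ⟨h⁻¹, inv_coe h⟩

theorem B_RR (h : S3) (a b : A6) :
    X.B (RR (Rm (star (h : Hq))) a) (RR (Rm (star (h : Hq))) b) = X.B a b := by
  obtain ⟨k, hk⟩ := star_S h
  rw [← hk, X_B, X_B, RR_apply, RR_apply, BQ_cmb]

theorem E_RR (M : M3) (w : V6 ℝ) (z : A6) : Y.E w (RR M z) = RR M (Y.E w z) := by
  rw [Y_E, RR_apply, Y_E, RR_apply]
  refine Prod.ext rfl ?_
  funext j
  simp only [crsM_apply, cmb_apply, map_add, map_smul]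

theorem J_RR (h : S3) (z a : A6) :
    Y.J (RR (Rm (star (h : Hq))) z) (RR (Rm (star (h : Hq))) a) = Y.J z a := by
  apply dt6_ext
  intro w
  rw [Y.dt6_J, Y.dt6_J, E_RR, B_RR]

theorem W_RR (D : Dat ℝ) (h : S3) (z a : A6) :
    WD D (RR (Rm (star (h : Hq))) z) (RR (Rm (star (h : Hq))) a) =
      RR (Rm (star (h : Hq))) (WD D z a) := by
  rw [WD_apply, WD_apply, J_RR, E_RR]
  rfl

theorem P_RR (h : S3) (p : S2 × SO3) (v : TangentSpace ((𝓡 2).prod (𝓡 3)) p) :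
    X.d (ractQ (pr h) p) (mfderiv ((𝓡 2).prod (𝓡 3)) ((𝓡 2).prod (𝓡 3)) (ractQ (pr h)) p v) =
      RR (Rm (star (h : Hq))) (X.d p v) := by
  have h1 : MDifferentiableAt ((𝓡 2).prod (𝓡 3)) ((𝓡 2).prod (𝓡 3)) (ractQ (pr h)) p :=
    (smooth_ractQ1 (pr h)).mdifferentiableAt (by simp)
  have h2 : MDifferentiableAt ((𝓡 2).prod (𝓡 3)) 𝓘(ℝ, A6) X.j (ractQ (pr h) p) :=
    X.hj.mdifferentiableAt (by simp)
  have h3 := mfderiv_comp p h2 h1
  have e : X.j ∘ ractQ (pr h) = fun q => RR (Rm (star (h : Hq))) (X.j q) := by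
    funext q
    exact j_ractQ h q
  rw [e] at h3
  have h4 := X.d_comp p ((RR (Rm (star (h : Hq)))).differentiableAt (x := X.j p)) v
  rw [ContinuousLinearMap.fderiv] at h4
  rw [← h4]
  have h5 := congrArg (fun L => L v) h3
  exact h5.symm

variable {D : Dat ℝ}

theorem isometric (hW : X.Com (WD D))
    {g : ContMDiffRiemannianMetric ((𝓡 2).prod (𝓡 3)) ∞
      (EuclideanSpace ℝ (Fin 2) × EuclideanSpace ℝ (Fin 3))
      (fun x : S2 × SO3 => TangentSpace ((𝓡 2).prod (𝓡 3)) x)} (hg : X.Dual g (WD D))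
    (h' : SO3) (p : S2 × SO3) (u v : TangentSpace ((𝓡 2).prod (𝓡 3)) p) :
    g.inner (ractQ h' p) (mfderiv ((𝓡 2).prod (𝓡 3)) ((𝓡 2).prod (𝓡 3)) (ractQ h') p u)
      (mfderiv ((𝓡 2).prod (𝓡 3)) ((𝓡 2).prod (𝓡 3)) (ractQ h') p v) = g.inner p u v := by
  obtain ⟨h, rfl⟩ := surjective_pr h'
  obtain ⟨a, ha, hu⟩ := Emb.exists_covec hW hg p u
  rw [hg p a u hu.symm, hg (ractQ (pr h) p) (RR (Rm (star (h : Hq))) a) _ (by
    rw [P_RR, ← hu, j_ractQ, W_RR]), P_RR, B_RR]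

theorem main {D : Dat ℝ} (hD : Good D) :
    ∃ g : ContMDiffRiemannianMetric ((𝓡 2).prod (𝓡 3)) ∞
      (EuclideanSpace ℝ (Fin 2) × EuclideanSpace ℝ (Fin 3))
      (fun x : S2 × SO3 => TangentSpace ((𝓡 2).prod (𝓡 3)) x),
      X.Dual g (WD D) ∧ PositivelyCurved g ∧ FreeIsometricAction (𝓡 3) g ractQ := by
  have hC := com hD.symW hD.symQ hD.pos
  obtain ⟨g, hg⟩ := Emb.exists_metric hC
  obtain ⟨cov, R, h, hR⟩ := Emb.exists_cov hC hg
  refine ⟨g, hg, ⟨⟨cov, R, h, hR⟩, ?_⟩, ?_⟩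
  · intro cov R h hR p u v huv
    exact Emb.sec_pos hC hg h hR (fun p a b γ ha hb haa hbb hab _ _ =>
      Pexp_pos hD.symW hD.symQ hD.on hD.gl p a b γ ha hb haa hbb hab) p u v huv
  · exact ⟨ractQ_one, ractQ_mul, smooth_ractQ, ractQ_free, isometric hC hg⟩

/-- `S² × SO(3)` carries a positively curved metric with a free isometric action of `SO(3)`. -/
theorem mainQ : PositivelyCurvedWithFreeAction ((𝓡 2).prod (𝓡 3)) (S2 × SO3) (𝓡 3) ractQ := by
  obtain ⟨D, hD⟩ := exists_good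
  obtain ⟨g, -, h1, h2⟩ := main hD
  exact ⟨inferInstance, inferInstance, g, h1, h2⟩

end Pool.Agent.KS6_83.QS
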