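import Pool.Agent.KS6_83.QS.B

/-!
The statement for `S² × S³` and `S² × SO(3)`.
-/

open Bundle Manifold ContDiff

set_option autoImplicit false

noncomputable section

namespace Pool.Agent.KS6_83.QS

open Pool.Agent.H878R5 Pool.Agent.H878R5.S23

section Defs

variable {E : Type*} [NormedAddCommGroup E] [NormedSpace ℝ E]
  {H : Type*} [TopologicalSpace H] {I : ModelWithCorners ℝ E H}
  {M : Type*} [TopologicalSpace M] [ChartedSpace H M] [IsManifold I ∞ M]
  {M' : Type*} [TopologicalSpace M'] [ChartedSpace H M'] [IsManifold I ∞ M']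

/-- the smooth map `f : M → M'` is a local isometry -/
def LocalIsometry (g : ContMDiffRiemannianMetric I ∞ E (fun x : M => TangentSpace I x))
    (g' : ContMDiffRiemannianMetric I ∞ E (fun x : M' => TangentSpace I x)) (f : M → M') : Prop :=
  ContMDiff I I ∞ f ∧ ∀ (p : M) (u v : TangentSpace I p),
    g'.inner (f p) (mfderiv I I f p u) (mfderiv I I f p v) = g.inner p u v

variable (I M) in
/-- the smooth Riemannian metrics on `M` -/
def Metrics : Type _ := ContMDiffRiemannianMetric I ∞ E (fun x : M => TangentSpace I x)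

variable (G : Type) [TopologicalSpace G] [ChartedSpace (EuclideanSpace ℝ (Fin 3)) G]
  [IsManifold (𝓡 3) ∞ G]

/-- the smooth Riemannian metrics on `S² × G` -/
def MetricS2 : Type := Metrics ((𝓡 2).prod (𝓡 3)) (S2 × G)

variable {G}

/-- `g` is positively curved -/
def Positive (g : MetricS2 G) : Prop := PositivelyCurved g

/-- `(x, q) ↦ (x, q h⁻¹)` is a smooth free action of the group `G` by isometries of `g` -/
def FreeIsometric [Group G] (g : MetricS2 G) : Prop :=
  FreeIsometricAction (𝓡 3) g fun (h : G) (p : S2 × G) => (p.1, p.2 * h⁻¹)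

/-- `S² × G` is compact and connected, `g` is positively curved and `(x, q) ↦ (x, q h⁻¹)` is a smooth
free isometric action of `G` -/
def IsExample [Group G] (g : MetricS2 G) : Prop :=
  CompactSpace (S2 × G) ∧ ConnectedSpace (S2 × G) ∧ Positive g ∧ FreeIsometric g

/-- `f` is a local isometry of `g` and `g'` -/
def LocalIso {G' : Type} [TopologicalSpace G'] [ChartedSpace (EuclideanSpace ℝ (Fin 3)) G']
    [IsManifold (𝓡 3) ∞ G'] (g : MetricS2 G) (g' : MetricS2 G') (f : S2 × G → S2 × G') : Prop :=
  LocalIsometry g g' f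

end Defs

/-- `SO(3)` is a Lie group, and the projection `S³ → SO(3)` is a surjective homomorphism with fibres
`{a, -a}` and a local diffeomorphism. -/
def IsRotationGroup : Prop :=
  LieGroup (𝓡 3) ∞ SO3 ∧ IsLocalDiffeomorph (𝓡 3) (𝓡 3) ∞ pr ∧ Function.Surjective pr ∧
    ∀ a b : S3, pr (a * b) = pr a * pr b ∧ (pr a = pr b ↔ b = a ∨ b = -a)

end Pool.Agent.KS6_83.QS
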