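import Pool.Agent.KS6_83.QS.G
import Pool.Agent.KS6_83.QS.T

/-!
The projection `S² × S³ → S² × SO(3)` is a local isometry of the two positively curved metrics.
-/

open Bundle Manifold ContDiff ContinuousLinearMap Filter VectorField Metric
open scoped Topology RealInnerProductSpace Quaternion

set_option autoImplicit false
set_option linter.unusedSectionVars false

noncomputable section

namespace Pool.Agent.KS6_83.QS

open Pool.Agent.H821R2 H907H Pool.Agent.H878R5 Pool.Agent.H893R5.HO HopfPP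
open Pool.Agent.H821R3 hiding S2
open Pool.Agent.H878R5.S23 hiding act act_apply X_B X_j X_P Y Y_E pj pj_apply pj_E dt_unit exists_E
  J_inj WD WD_apply com x_perp_J Gamma_perp Pexp_pos X RR RR_apply B_RR E_RR J_RR W_RR P_RR
  isometric main compact_connected

/-- the projection `(x, q) ↦ (x, ± q)` of `S² × S³` to `S² × SO(3)` -/
def proj (p : S2 × S3) : S2 × SO3 := (p.1, pr p.2)

theorem smooth_proj : ContMDiff ((𝓡 2).prod (𝓡 3)) ((𝓡 2).prod (𝓡 3)) ∞ proj :=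
  contMDiff_fst.prodMk (smooth_pr.comp contMDiff_snd)

/-- the map of the ambient spaces -/
def Phi (z : AA) : A6 := (z.1, Rm z.2)

theorem j_proj (p : S2 × S3) : X.j (proj p) = Phi (S23.X.j p) := rfl

/-- the derivative of `Phi` -/
def dPhi (z : AA) : AA →L[ℝ] A6 :=
  (ContinuousLinearMap.fst ℝ R3 Hq).prod
    ((Rb z.2 + Rb.flip z.2).comp (ContinuousLinearMap.snd ℝ R3 Hq))

theorem dPhi_apply (z a : AA) : dPhi z a = (a.1, Rb z.2 a.2 + Rb a.2 z.2) := rfl

theorem hasFDerivAt_Phi (z : AA) : HasFDerivAt Phi (dPhi z) z := by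
  have h1 : HasFDerivAt (fun z : AA => z.1) (ContinuousLinearMap.fst ℝ R3 Hq) z := hasFDerivAt_fst
  have h2 : HasFDerivAt (fun z : AA => z.2) (ContinuousLinearMap.snd ℝ R3 Hq) z := hasFDerivAt_snd
  have h3 : HasFDerivAt (fun z : AA => Rb z.2) (Rb.comp (ContinuousLinearMap.snd ℝ R3 Hq)) z :=
    HasFDerivAt.comp (f := fun z : AA => z.2) (g := fun a => Rb a) z Rb.hasFDerivAt h2
  have h4 := h3.clm_apply h2
  refine (h1.prodMk h4).congr_fderiv ?_
  ext a <;> simp [dPhi]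

/-- `Phi` intertwines the two actions of the Lie algebra -/
theorem dPhi_E (w : V6 ℝ) (z : AA) : dPhi z (S23.Y.E w z) = Y.E w (Phi z) := by
  rw [dPhi_apply, S23.Y_E, Y_E]
  refine Prod.ext rfl ?_
  funext i
  simp only [Pi.add_apply, crsM_apply, Rb_apply, Phi]
  obtain ⟨b, hb⟩ : ∃ b : Hq, b = z.2 * ei i * star z.2 := ⟨_, rfl⟩
  obtain ⟨om, ho⟩ : ∃ om : Hq, om = im w.2 := ⟨_, rfl⟩
  have hs : star om = -om := by
    rw [ho]
    exact star_iR (WithLp.toLp 2 w.2)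
  have hn : nu om = WithLp.toLp 2 w.2 := by
    rw [ho]
    exact nu_iR (WithLp.toLp 2 w.2)
  have e1 : z.2 * ei i * star ((1 / 2 : ℝ) • (om * z.2)) = (1 / 2 : ℝ) • (-(b * om)) := by
    rw [← conj_apply, map_smul, conj_apply, star_mul, hs, mul_smul_comm, hb]
    congr 1
    simp only [mul_neg, mul_assoc]
  have e2 : (1 / 2 : ℝ) • (om * z.2) * ei i * star z.2 = (1 / 2 : ℝ) • (om * b) := by
    rw [hb, smul_mul_assoc, smul_mul_assoc]
    simp only [mul_assoc]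
  have e4 := nu_comm om b
  rw [← ho, e1, e2, Rm_apply, ← hb, ← hn, ← map_add, ← smul_add, map_smul,
    show -(b * om) + om * b = om * b - b * om by abel, e4, smul_smul]
  norm_num

theorem d_proj (p : S2 × S3) (v : TangentSpace ((𝓡 2).prod (𝓡 3)) p) :
    X.d (proj p) (mfderiv ((𝓡 2).prod (𝓡 3)) ((𝓡 2).prod (𝓡 3)) proj p v) =
      dPhi (S23.X.j p) (S23.X.d p v) := by
  have h1 : MDifferentiableAt ((𝓡 2).prod (𝓡 3)) ((𝓡 2).prod (𝓡 3)) proj p :=
    smooth_proj.mdifferentiableAt (by simp)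
  have h2 : MDifferentiableAt ((𝓡 2).prod (𝓡 3)) 𝓘(ℝ, A6) X.j (proj p) :=
    X.hj.mdifferentiableAt (by simp)
  have h3 := mfderiv_comp p h2 h1
  have e : X.j ∘ proj = fun q => Phi (S23.X.j q) := by
    funext q
    exact j_proj q
  rw [e] at h3
  have h4 := S23.X.d_comp p ((hasFDerivAt_Phi (S23.X.j p)).differentiableAt) v
  rw [(hasFDerivAt_Phi (S23.X.j p)).fderiv] at h4
  rw [← h4]
  have h5 := congrArg (fun L => L v) h3
  exact h5.symm

variable {D : Dat ℝ}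

/-- The projection is a local isometry. -/
theorem local_isometry (hpos : ∀ (x : V ℝ) (a : V6 ℝ), dt x x = 1 → a ≠ 0 → 0 < dt6 a (KK D x a))
    (h5 : S23.X.Com (S23.WD D)) (h6 : X.Com (WD D))
    {g : ContMDiffRiemannianMetric ((𝓡 2).prod (𝓡 3)) ∞
      (EuclideanSpace ℝ (Fin 2) × EuclideanSpace ℝ (Fin 3))
      (fun x : S2 × S3 => TangentSpace ((𝓡 2).prod (𝓡 3)) x)} (hg : S23.X.Dual g (S23.WD D))
    {g' : ContMDiffRiemannianMetric ((𝓡 2).prod (𝓡 3)) ∞
      (EuclideanSpace ℝ (Fin 2) × EuclideanSpace ℝ (Fin 3))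
      (fun x : S2 × SO3 => TangentSpace ((𝓡 2).prod (𝓡 3)) x)} (hg' : X.Dual g' (WD D))
    (p : S2 × S3) (u v : TangentSpace ((𝓡 2).prod (𝓡 3)) p) :
    g'.inner (proj p) (mfderiv ((𝓡 2).prod (𝓡 3)) ((𝓡 2).prod (𝓡 3)) proj p u)
      (mfderiv ((𝓡 2).prod (𝓡 3)) ((𝓡 2).prod (𝓡 3)) proj p v) = g.inner p u v := by
  obtain ⟨a, ha, hu⟩ := Emb.exists_covec h5 hg p u
  obtain ⟨a', ha', hu'⟩ := Emb.exists_covec h6 hg' (proj p)
    (mfderiv ((𝓡 2).prod (𝓡 3)) ((𝓡 2).prod (𝓡 3)) proj p u)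
  obtain ⟨w, hw⟩ := S23.exists_E p (S23.X.d p v) (by exact S23.X.Pd p v)
  rw [hg p a u hu.symm, hg' (proj p) a' _ hu'.symm, d_proj, ← hw, dPhi_E, ← j_proj,
    ← Y.dt6_J, ← S23.Y.dt6_J]
  congr 1
  -- equality of the momenta
  rw [d_proj, ← hu, S23.WD_apply, dPhi_E, ← j_proj, WD_apply] at hu'
  have hpj : pj (X.j (proj p)) = S23.pj (S23.X.j p) := rfl
  obtain ⟨x, hx⟩ : ∃ x : V ℝ, x = S23.pj (S23.X.j p) := ⟨_, rfl⟩
  have hxx : dt x x = 1 := by rw [hx]; exact S23.dt_unit p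
  rw [hpj, ← hx] at hu'
  obtain ⟨δ, hδ⟩ : ∃ δ : V6 ℝ, δ = Y.J (X.j (proj p)) a' - S23.Y.J (S23.X.j p) a := ⟨_, rfl⟩
  obtain ⟨om, ho⟩ : ∃ om : V6 ℝ, om = KK D x δ := ⟨_, rfl⟩
  have k1 : Y.E om (X.j (proj p)) = 0 := by
    have e : om = KK D x (Y.J (X.j (proj p)) a') - KK D x (S23.Y.J (S23.X.j p) a) := by
      rw [ho, hδ, KK_eq, KK_eq, KK_eq, map_sub, map_sub]
      abel
    rw [e, map_sub, _root_.sub_apply, hu', sub_self]
  have k2 : S23.Y.E om (S23.X.j p) = 0 := by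
    have l1 : cr3 om.1 (p.1 : R3) = 0 := by
      have := congrArg Prod.fst k1
      rw [Y_E] at this
      exact this
    have l2 : (WithLp.toLp 2 om.2 : R3) = 0 := by
      have := congrArg Prod.snd k1
      rw [Y_E] at this
      exact crsM_inj p.2 this
    have l3 : om.2 = 0 := by
      have := congrArg WithLp.ofLp l2
      exact this
    rw [S23.Y_E]
    refine Prod.ext l1 ?_
    rw [l3]
    have : im (0 : V ℝ) = 0 := by ext <;> simp
    rw [this, zero_mul, smul_zero]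
    rfl
  have k3 : dt6 δ om = 0 := by
    have m1 := Y.dt6_J (X.j (proj p)) a' om
    have m2 := S23.Y.dt6_J (S23.X.j p) a om
    rw [k1, map_zero] at m1
    rw [k2, map_zero] at m2
    have : dt6 δ om = dt6 (Y.J (X.j (proj p)) a') om - dt6 (S23.Y.J (S23.X.j p) a) om := by
      rw [hδ]
      simp [dt6, dt]
      ring
    rw [this, m1, m2, sub_zero]
  by_contra hne
  have hδ0 : δ ≠ 0 := fun h => hne (sub_eq_zero.1 (hδ ▸ h))
  have := hpos x δ hxx hδ0
  rw [← ho, k3] at this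
  exact lt_irrefl _ this

/-- **The metrics on `S² × S³` and `S² × SO(3)`.** -/
theorem both : ∃ (g : MetricS2 S3) (g' : MetricS2 SO3),
    IsExample g ∧ IsExample g' ∧ LocalIso g g' (fun p => (p.1, pr p.2)) := by
  obtain ⟨D, hD⟩ := exists_good
  obtain ⟨g, hg, h1, h2⟩ := S23.main hD
  obtain ⟨g', hg', h3, h4⟩ := main hD
  exact ⟨g, g', ⟨inferInstance, inferInstance, h1, h2⟩, ⟨inferInstance, inferInstance, h3, h4⟩,
    smooth_proj, local_isometry hD.pos (S23.com hD.symW hD.symQ hD.pos)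
    (com hD.symW hD.symQ hD.pos) hg hg'⟩

theorem isRotationGroup : IsRotationGroup :=
  ⟨lieSO3, localDiffeo_pr, surjective_pr, fun _ _ => ⟨rfl, pr_eq⟩⟩

end Pool.Agent.KS6_83.QS
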